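import Mathlib
import Pool.Agent.L7h28.UM.Stm
import Pool.Agent.H378R2.M5

/-!
# Uniform Maynard-Tao theorem of Linnik type (helper28): the part `S_CB`, combinatorics

The sieve sum restricted to the pairs with `g j ∣ lcm (d j) (e j)` as an alternating sum of sieve sums.
-/

set_option autoImplicit false

namespace Pool.Agent.L7h80.UM

open Finset Filter MeasureTheory Pool.Agent.H378R2 Pool.Agent.H378R2.M5 Pool.Agent.L7h28.UM

variable {J : ℕ}

/-- the weights of the alternating sum -/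
noncomputable def wS (g : Fin J → ℕ) (T : Finset ℕ) (w : ℕ → ℝ) (S : Finset ℕ) (p : ℕ) (j : Fin J) :
    ℝ :=
  if p ∈ T then (if p ∈ S then 0 else if p ∣ g j then w p else 0) else w p

lemma alt {R : Type} [CommRing R] (T : Finset ℕ) (a b : ℕ → R) :
    ∑ S ∈ T.powerset, (-1) ^ S.card * ∏ p ∈ T, (if p ∈ S then a p else b p) =
      ∏ p ∈ T, (b p - a p) := by
  rw [prod_sub]
  apply sum_congr rfl
  intro S hS
  rw [mem_powerset] at hS
  rw [← prod_sdiff hS, mul_assoc]
  congr 2
  · exact prod_congr rfl fun p hp => if_neg (mem_sdiff.1 hp).2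
  · exact prod_congr rfl fun p hp => if_pos hp

lemma split {R : Type} [CommRing R] (l : Fin J → ℕ) (T : Finset ℕ) (f : ℕ → Fin J → R) :
    ∏ j, ∏ p ∈ (l j).primeFactors, f p j = (∏ j, ∏ p ∈ (l j).primeFactors \ T, f p j) *
      ∏ p ∈ T, ∏ j, (if p ∈ (l j).primeFactors then f p j else 1) := by
  rw [prod_comm (s := T), ← prod_mul_distrib]
  apply prod_congr rfl
  intro j _
  rw [prod_ite_mem, inter_comm, mul_comm, prod_inter_mul_prod_sdiff]

theorem incl (g l : Fin J → ℕ) (w : ℕ → ℝ) (hg : Pairwise fun i j => (g i).Coprime (g j))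
    (hgs : ∀ j, Squarefree (g j)) (hl : Pairwise fun i j => (l i).Coprime (l j))
    (hl0 : ∀ j, l j ≠ 0) :
    ∑ S ∈ (∏ j, g j).primeFactors.powerset, (-1 : ℝ) ^ S.card *
      ∏ j, ∏ p ∈ (l j).primeFactors, wS g (∏ j, g j).primeFactors w S p j =
      if ∀ j, g j ∣ l j then ∏ j, ∏ p ∈ (l j).primeFactors, w p else 0 := by
  classical
  set T := (∏ j, g j).primeFactors with hT
  have hg0 : ∏ j, g j ≠ 0 := prod_ne_zero_iff.2 fun j _ => (hgs j).ne_zero
  have hTm : ∀ p, p ∈ T ↔ p.Prime ∧ ∃ j, p ∣ g j := by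
    intro p
    rw [hT, Nat.mem_primeFactors]
    constructor
    · rintro ⟨hp, h, -⟩
      obtain ⟨j, -, hj⟩ := (hp.prime.dvd_finsetProd_iff _).1 h
      exact ⟨hp, j, hj⟩
    · rintro ⟨hp, j, hj⟩
      exact ⟨hp, hj.trans (dvd_prod_of_mem g (mem_univ j)), hg0⟩
  have huniq : ∀ (f : Fin J → ℕ), (Pairwise fun i j => (f i).Coprime (f j)) → ∀ p : ℕ, p.Prime →
      ∀ i j, p ∣ f i → p ∣ f j → i = j := by
    intro f hf p hp i j hi hj
    by_contra hne
    have h1 := Nat.dvd_gcd hi hj
    rw [Nat.coprime_iff_gcd_eq_one.1 (hf hne)] at h1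
    exact hp.one_lt.ne' (Nat.dvd_one.1 h1)
  set a : ℕ → ℝ := fun p => ∏ j, (if p ∈ (l j).primeFactors then (0 : ℝ) else 1) with ha
  set b : ℕ → ℝ := fun p => ∏ j, (if p ∈ (l j).primeFactors then (if p ∣ g j then w p else 0)
    else 1) with hb
  have h1 : ∀ S ∈ T.powerset, (-1 : ℝ) ^ S.card *
      ∏ j, ∏ p ∈ (l j).primeFactors, wS g T w S p j =
      (∏ j, ∏ p ∈ (l j).primeFactors \ T, w p) *
        ((-1) ^ S.card * ∏ p ∈ T, (if p ∈ S then a p else b p)) := by
    intro S _
    rw [split l T (wS g T w S)]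
    have e1 : ∏ j, ∏ p ∈ (l j).primeFactors \ T, wS g T w S p j =
        ∏ j, ∏ p ∈ (l j).primeFactors \ T, w p := by
      apply prod_congr rfl
      intro j _
      apply prod_congr rfl
      intro p hp
      unfold wS
      rw [if_neg (mem_sdiff.1 hp).2]
    have e2 : ∏ p ∈ T, ∏ j, (if p ∈ (l j).primeFactors then wS g T w S p j else 1) =
        ∏ p ∈ T, (if p ∈ S then a p else b p) := by
      apply prod_congr rfl
      intro p hp
      split_ifs with hpS
      · rw [ha]
        apply prod_congr rfl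
        intro j _
        unfold wS
        rw [if_pos hp, if_pos hpS]
      · rw [hb]
        apply prod_congr rfl
        intro j _
        unfold wS
        rw [if_pos hp, if_neg hpS]
    rw [e1, e2]
    ring
  rw [sum_congr rfl h1, ← mul_sum, alt]
  split_ifs with h
  · rw [split l T (fun p _ => w p)]
    congr 1
    apply prod_congr rfl
    intro p hp
    obtain ⟨hpp, j, hj⟩ := (hTm p).1 hp
    have hjl : p ∈ (l j).primeFactors := Nat.mem_primeFactors.2 ⟨hpp, hj.trans (h j), hl0 j⟩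
    have ha0 : a p = 0 := by
      rw [ha]
      exact prod_eq_zero (mem_univ j) (if_pos hjl)
    rw [ha0, sub_zero, hb]
    apply prod_congr rfl
    intro i _
    split_ifs with h2 h3
    · rfl
    · exfalso
      apply h3
      have := huniq l hl p hpp i j (Nat.dvd_of_mem_primeFactors h2) (hj.trans (h j))
      rw [this]
      exact hj
    · rfl
  · push Not at h
    obtain ⟨j, hj⟩ := h
    have h2 : ∃ p : ℕ, p.Prime ∧ p ∣ g j ∧ ¬ p ∣ l j := by
      by_contra hc
      push Not at hc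
      apply hj
      rw [← Nat.prod_primeFactors_of_squarefree (hgs j)]
      apply prod_primes_dvd
      · intro p hp
        exact (Nat.prime_of_mem_primeFactors hp).prime
      · intro p hp
        exact hc p (Nat.prime_of_mem_primeFactors hp) (Nat.dvd_of_mem_primeFactors hp)
    obtain ⟨p, hpp, hpj, hpl⟩ := h2
    rw [prod_eq_zero (i := p) ((hTm p).2 ⟨hpp, j, hpj⟩), mul_zero]
    by_cases h3 : ∃ i, p ∈ (l i).primeFactors
    · obtain ⟨i, hi⟩ := h3
      have ha0 : a p = 0 := by
        rw [ha]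
        exact prod_eq_zero (mem_univ i) (if_pos hi)
      have hb0 : b p = 0 := by
        rw [hb]
        apply prod_eq_zero (mem_univ i)
        rw [if_pos hi, if_neg]
        intro h4
        have := huniq g hg p hpp i j h4 hpj
        rw [this] at hi
        exact hpl (Nat.dvd_of_mem_primeFactors hi)
      rw [ha0, hb0, sub_zero]
    · push Not at h3
      have ha0 : a p = 1 := by
        rw [ha]
        exact prod_eq_one fun i _ => if_neg (h3 i)
      have hb0 : b p = 1 := by
        rw [hb]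
        exact prod_eq_one fun i _ => if_neg (h3 i)
      rw [ha0, hb0, sub_self]

open Classical in
theorem cSum_eq (F G : Fin J → ℝ → ℝ) (L : ℝ) (E : Finset ℕ) (w : ℕ → ℝ) (R : ℕ) (g : Fin J → ℕ)
    (hg : Pairwise fun i j => (g i).Coprime (g j)) (hgs : ∀ j, Squarefree (g j)) :
    cSum F G L E w R g = ∑ S ∈ (∏ j, g j).primeFactors.powerset, (-1 : ℝ) ^ S.card *
      sieveSum J F G L (fun _ => E) (wS g (∏ j, g j).primeFactors w S) R := by
  unfold cSum sieveSum
  simp_rw [mul_sum]
  symm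
  rw [sum_comm]
  apply sum_congr rfl
  intro d hd
  rw [sum_comm]
  apply sum_congr rfl
  intro e he
  symm
  have hd0 : ∀ j, d j ≠ 0 := by
    intro j
    have h1 := Fintype.mem_piFinset.1 hd j
    unfold adm at h1
    rw [mem_filter, mem_Icc] at h1
    omega
  have he0 : ∀ j, e j ≠ 0 := by
    intro j
    have h1 := Fintype.mem_piFinset.1 he j
    unfold adm at h1
    rw [mem_filter, mem_Icc] at h1
    omega
  by_cases hPC : PC d e
  · have h1 := incl g (fun j => Nat.lcm (d j) (e j)) w hg hgs hPC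
      (fun j => Nat.lcm_ne_zero (hd0 j) (he0 j))
    have h2 : ∀ S ∈ (∏ j, g j).primeFactors.powerset, (-1 : ℝ) ^ S.card *
        (if Pairwise (fun i j => (Nat.lcm (d i) (e i)).Coprime (Nat.lcm (d j) (e j))) then
          ∏ j, (((ArithmeticFunction.moebius (d j) : ℤ) : ℝ) *
            ((ArithmeticFunction.moebius (e j) : ℤ) : ℝ) *
            F j (Real.log (d j) / L) * G j (Real.log (e j) / L) *
            ∏ p ∈ (Nat.lcm (d j) (e j)).primeFactors, wS g (∏ j, g j).primeFactors w S p j)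
        else 0) = wt F G L d e * ((-1 : ℝ) ^ S.card *
          ∏ j, ∏ p ∈ (Nat.lcm (d j) (e j)).primeFactors, wS g (∏ j, g j).primeFactors w S p j) := by
      intro S _
      have hPC' : Pairwise (fun i j => (Nat.lcm (d i) (e i)).Coprime (Nat.lcm (d j) (e j))) := hPC
      rw [if_pos hPC', prod_mul_distrib]
      unfold wt
      ring
    rw [sum_congr rfl h2, ← mul_sum, h1]
    by_cases h3 : ∀ j, g j ∣ Nat.lcm (d j) (e j)
    · rw [if_pos ⟨hPC, h3⟩, if_pos h3]
    · rw [if_neg (fun h => h3 h.2), if_neg h3, mul_zero]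
  · rw [if_neg (fun h => hPC h.1)]
    symm
    apply sum_eq_zero
    intro S _
    have hPC' : ¬ Pairwise (fun i j => (Nat.lcm (d i) (e i)).Coprime (Nat.lcm (d j) (e j))) := hPC
    rw [if_neg hPC', mul_zero]

/-- the factor of the removed primes -/
noncomputable def HH' (g : Fin J → ℕ) (L : ℝ) (z : Fin J → ℝ × ℝ) (p : ℕ) : ℂ :=
  ∑ j, if p ∣ g j then (-xp L (z j).1 p + -xp L (z j).2 p + -xp L (z j).1 p * -xp L (z j).2 p)
    else 0

theorem kk_sum (g : Fin J → ℕ) (L : ℝ) (E T : Finset ℕ) (w : ℕ → ℝ) (z : Fin J → ℝ × ℝ) (Y : ℕ)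
    (hTY : T ⊆ PY Y) (hTE : ∀ p ∈ T, p ∉ E) :
    ∑ S ∈ T.powerset, (-1 : ℂ) ^ S.card * ∏ p ∈ PY Y, kk L (fun _ => E) (wS g T w S) z p =
      (∏ p ∈ PY Y, kk L (fun _ => E ∪ T) (fun p _ => w p) z p) *
        ∏ p ∈ T, ((w p : ℂ) * HH' g L z p) := by
  classical
  have h1 : ∀ S ∈ T.powerset, (-1 : ℂ) ^ S.card * ∏ p ∈ PY Y, kk L (fun _ => E) (wS g T w S) z p =
      (∏ p ∈ PY Y, kk L (fun _ => E ∪ T) (fun p _ => w p) z p) *
      ((-1) ^ S.card * ∏ p ∈ T, (if p ∈ S then 1 else 1 + (w p : ℂ) * HH' g L z p)) := by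
    intro S _
    rw [← prod_sdiff hTY, ← prod_sdiff (f := fun p => kk L (fun _ => E ∪ T) (fun p _ => w p) z p) hTY]
    have e1 : ∏ p ∈ PY Y \ T, kk L (fun _ => E) (wS g T w S) z p =
        ∏ p ∈ PY Y \ T, kk L (fun _ => E ∪ T) (fun p _ => w p) z p := by
      apply prod_congr rfl
      intro p hp
      have hpT := (mem_sdiff.1 hp).2
      unfold kk wS
      simp only [mem_union, hpT, or_false, if_false]
    have e2 : ∏ p ∈ T, kk L (fun _ => E ∪ T) (fun p _ => w p) z p = 1 := by
      apply prod_eq_one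
      intro p hp
      unfold kk
      simp only [mem_union, hp, or_true, if_true]
      simp
    have e3 : ∏ p ∈ T, kk L (fun _ => E) (wS g T w S) z p =
        ∏ p ∈ T, (if p ∈ S then 1 else 1 + (w p : ℂ) * HH' g L z p) := by
      apply prod_congr rfl
      intro p hp
      unfold kk wS HH'
      simp only [if_neg (hTE p hp), if_pos hp]
      split_ifs with hpS
      · simp
      · congr 1
        rw [mul_sum]
        apply sum_congr rfl
        intro j _
        split_ifs
        · rfl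
        · simp
    rw [e1, e2, e3]
    ring
  rw [sum_congr rfl h1, ← mul_sum, alt]
  congr 1
  apply prod_congr rfl
  intro p _
  ring

theorem norm_HH'_le (g : Fin J → ℕ) (hg : Pairwise fun i j => (g i).Coprime (g j)) {L : ℝ}
    (hL : 0 < L) (z : Fin J → ℝ × ℝ) {p : ℕ} (hp : p.Prime) : ‖HH' g L z p‖ ≤ 3 := by
  classical
  have hc : ∀ j, ‖(-xp L (z j).1 p + -xp L (z j).2 p + -xp L (z j).1 p * -xp L (z j).2 p)‖ ≤ 3 := by
    intro j
    have hx := norm_xp_le_one hL (z j).1 p
    have hy := norm_xp_le_one hL (z j).2 p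
    have hxy : ‖-xp L (z j).1 p * -xp L (z j).2 p‖ ≤ 1 := by
      rw [norm_mul, norm_neg, norm_neg]
      exact mul_le_one₀ hx (norm_nonneg _) hy
    have hx' : ‖-xp L (z j).1 p‖ ≤ 1 := by rwa [norm_neg]
    have hy' : ‖-xp L (z j).2 p‖ ≤ 1 := by rwa [norm_neg]
    refine (norm_add_le _ _).trans ?_
    have := norm_add_le (-xp L (z j).1 p) (-xp L (z j).2 p)
    linarith
  unfold HH'
  by_cases h : ∃ j, p ∣ g j
  · obtain ⟨j, hj⟩ := h
    rw [sum_eq_single j]
    · rw [if_pos hj]
      exact hc j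
    · intro i _ hij
      rw [if_neg]
      intro hi
      have h1 := Nat.dvd_gcd hi hj
      rw [Nat.coprime_iff_gcd_eq_one.1 (hg hij)] at h1
      exact hp.one_lt.ne' (Nat.dvd_one.1 h1)
    · intro h2
      exact absurd (mem_univ j) h2
  · push Not at h
    rw [sum_eq_zero fun j _ => if_neg (h j), norm_zero]
    norm_num

end Pool.Agent.L7h80.UM
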