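import Mathlib
import Pool.Agent.L7h80.UM.CB1

/-!
# Uniform Maynard-Tao theorem of Linnik type (helper28): the part `S_CB`

Bound for the sieve sum restricted to the pairs with `g j ∣ lcm (d j) (e j)`.
-/

set_option autoImplicit false

namespace Pool.Agent.L7h80.UM

open Finset Filter MeasureTheory Pool.Agent.H378R2 Pool.Agent.H378R2.M5 Pool.Agent.L7h28.UM
open scoped ContDiff

variable {J : ℕ}

lemma continuous_kk (L : ℝ) (E : Fin J → Finset ℕ) (w : ℕ → Fin J → ℝ) (p : ℕ) :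
    Continuous (fun z : Fin J → ℝ × ℝ => kk L E w z p) := by
  have c3 : ∀ (j : Fin J), Continuous (fun z : Fin J → ℝ × ℝ => xp L (z j).1 p) :=
    fun j => (continuous_xp L p).comp (continuous_fst.comp (continuous_apply j))
  have c4 : ∀ (j : Fin J), Continuous (fun z : Fin J → ℝ × ℝ => xp L (z j).2 p) :=
    fun j => (continuous_xp L p).comp (continuous_snd.comp (continuous_apply j))
  unfold kk
  refine continuous_const.add (continuous_finsetSum _ (fun j _ => continuous_const.mul ?_))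
  exact ((c3 j).neg.add (c4 j).neg).add ((c3 j).neg.mul (c4 j).neg)

lemma norm_c_le {L : ℝ} (hL : 0 < L) (v v' : ℝ) (p : ℕ) :
    ‖(-xp L v p + -xp L v' p + -xp L v p * -xp L v' p)‖ ≤ 3 := by
  have hx := norm_xp_le_one hL v p
  have hy := norm_xp_le_one hL v' p
  have hxy : ‖-xp L v p * -xp L v' p‖ ≤ 1 := by
    rw [norm_mul, norm_neg, norm_neg]
    exact mul_le_one₀ hx (norm_nonneg _) hy
  have hx' : ‖-xp L v p‖ ≤ 1 := by rwa [norm_neg]
  have hy' : ‖-xp L v' p‖ ≤ 1 := by rwa [norm_neg]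
  refine (norm_add_le _ _).trans ?_
  have := norm_add_le (-xp L v p) (-xp L v' p)
  linarith

lemma norm_kk_le {L : ℝ} (hL : 0 < L) (E : Fin J → Finset ℕ) (w : ℕ → Fin J → ℝ)
    (z : Fin J → ℝ × ℝ) (p : ℕ) : ‖kk L E w z p‖ ≤ 1 + ∑ j, |w p j| * 3 := by
  unfold kk
  refine (norm_add_le _ _).trans ?_
  rw [norm_one]
  apply add_le_add le_rfl
  refine (norm_sum_le _ _).trans ?_
  apply sum_le_sum
  intro j _
  rw [norm_mul, Complex.norm_real, Real.norm_eq_abs]
  apply mul_le_mul _ (norm_c_le hL _ _ p) (norm_nonneg _) (abs_nonneg _)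
  split_ifs
  · rw [abs_zero]
    exact abs_nonneg _
  · exact le_rfl

lemma integrable_kk {L : ℝ} (hL : 0 < L) (E : Fin J → Finset ℕ) (w : ℕ → Fin J → ℝ) (Y : ℕ)
    (η η' : Fin J → ℝ → ℂ) (hη : ∀ j, Integrable (η j)) (hη' : ∀ j, Integrable (η' j)) :
    Integrable (fun z : Fin J → ℝ × ℝ =>
      (∏ j, (η j (z j).1 * η' j (z j).2)) * ∏ p ∈ PY Y, kk L E w z p) := by
  have h1 : Integrable (fun z : Fin J → ℝ × ℝ => ∏ j, (η j (z j).1 * η' j (z j).2)) := by
    apply Integrable.fintype_prod (f := fun j (z : ℝ × ℝ) => η j z.1 * η' j z.2)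
    intro j
    exact (hη j).mul_prod (hη' j)
  apply Integrable.mul_bdd (c := ∏ p ∈ PY Y, (1 + ∑ j, |w p j| * 3)) h1
  · apply Continuous.aestronglyMeasurable
    exact continuous_finsetProd _ (fun p _ => continuous_kk L E w p)
  · refine Eventually.of_forall (fun z => ?_)
    rw [norm_prod]
    exact prod_le_prod (fun _ _ => norm_nonneg _) (fun p _ => norm_kk_le hL E w z p)

set_option maxHeartbeats 1000000 in
theorem s_CB : S_CB := by
  classical
  intro J F G hF hG hFc hGc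
  choose η hηc hηi hηF hηF' using fun j => fourier_data (F j) (hF j) (hFc j)
  choose η' hηc' hηi' hηG hηG' using fun j => fourier_data (G j) (hG j) (hGc j)
  obtain ⟨C, hC1, hC⟩ := zf_bound
  set N : ℕ := 32 * J + 2 with hN
  have hN0 : (0 : ℝ) < N := by rw [hN]; positivity
  have hN1 : (1 : ℝ) ≤ N := by
    have : 1 ≤ N := by omega
    exact_mod_cast this
  set c0 : ℝ := Real.exp 16 * (2 * C) with hc0
  have hc00 : 0 ≤ c0 := by positivity
  set bnd : (Fin J → ℝ × ℝ) → ℝ := fun z => Real.exp (CJ J) *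
    ∏ j, (c0 * ((‖ss (z j).1‖ ^ 3 * ‖η j (z j).1‖) * (‖ss (z j).2‖ ^ 2 * ‖η' j (z j).2‖))) with hbnd
  have hbnd0 : ∀ z, 0 ≤ bnd z := by
    intro z
    rw [hbnd]
    positivity
  have hbndi : Integrable bnd := by
    apply Integrable.const_mul
    apply Integrable.fintype_prod (f := fun j (z : ℝ × ℝ) =>
      c0 * ((‖ss z.1‖ ^ 3 * ‖η j z.1‖) * (‖ss z.2‖ ^ 2 * ‖η' j z.2‖)))
    intro j
    exact ((hηi j 3).mul_prod (hηi' j 2)).const_mul c0
  have hCJ : 0 ≤ CJ J := by rw [CJ]; positivity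
  have hηint : ∀ j, Integrable (η j) := by
    intro j
    have h1 := hηi j 0
    simp only [pow_zero, one_mul] at h1
    exact (integrable_norm_iff (hηc j).aestronglyMeasurable).mp h1
  have hηint' : ∀ j, Integrable (η' j) := by
    intro j
    have h1 := hηi' j 0
    simp only [pow_zero, one_mul] at h1
    exact (integrable_norm_iff (hηc' j).aestronglyMeasurable).mp h1
  have hI0 : 0 ≤ ∫ z, bnd z := integral_nonneg hbnd0
  refine ⟨(∫ z, bnd z) + 1, 1 / N, by positivity, by positivity, ?_⟩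
  intro L E w R g hδL hFG hEp hEs hE1 hE2 hw hgs hgc hgE
  rw [one_div_one_div] at hδL hEs
  have hL2 : 2 ≤ L := by
    refine le_trans ?_ hδL
    have : 2 ≤ N := by omega
    exact_mod_cast this
  have hL0 : 0 < L := by linarith
  set T := (∏ j, g j).primeFactors with hT
  have hg0 : ∏ j, g j ≠ 0 := prod_ne_zero_iff.2 fun j _ => (hgs j).ne_zero
  have hTp : ∀ p ∈ T, p.Prime := fun p hp => Nat.prime_of_mem_primeFactors hp
  have hTE : ∀ p ∈ T, p ∉ E := by
    intro p hp
    obtain ⟨j, -, hj⟩ := ((hTp p hp).prime.dvd_finsetProd_iff _).1 (Nat.dvd_of_mem_primeFactors hp)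
    exact hgE j p (hTp p hp) hj
  have hETp : ∀ p ∈ E ∪ T, p.Prime := by
    intro p hp
    rcases mem_union.1 hp with h | h
    · exact hEp p h
    · exact hTp p h
  -- choice of Y
  obtain ⟨Y0, hY0⟩ := exists_tail hL0 1 one_pos
  set Y : ℕ := max Y0 (max R ((E ∪ T).sup id)) with hY
  have hRY : R ≤ Y := (le_max_left _ _).trans (le_max_right _ _)
  have hETY : E ∪ T ⊆ PY Y := by
    intro p hp
    rw [PY, Finset.mem_filter, Finset.mem_Icc]
    refine ⟨⟨(hETp p hp).one_lt.le, ?_⟩, hETp p hp⟩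
    have h1 : p ≤ (E ∪ T).sup id := Finset.le_sup (f := id) hp
    exact h1.trans ((le_max_right _ _).trans (le_max_right _ _))
  have hTY : T ⊆ PY Y := subset_union_right.trans hETY
  have hYt := hY0 Y (le_max_left _ _)
  -- factorization
  have hfact : ∀ (z : Fin J → ℝ × ℝ), ∃ (ρ : ℂ) (τ : Fin J → ℂ),
      ‖ρ - 1‖ ≤ Real.exp (CJ J / (N : ℕ)) - 1 ∧ (∀ j, ‖τ j - 1‖ ≤ 1) ∧
      (∏ j : Fin J, ((L : ℂ) * ∏ p ∈ E ∪ T, (1 - 1 / (p : ℂ)))) *
        ∏ p ∈ PY Y, kk L (fun _ => E ∪ T) (fun p _ => w p) z p =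
        ρ * ∏ j, (TTT L (z j).1 (z j).2 (E ∪ T) * (τ j * zf L (z j).1 (z j).2)) := by
    intro z
    apply factorization hL0 (fun _ => E ∪ T) (fun p _ => w p) N Y (by omega) (by omega)
      1 _ _ (fun _ => hETY) hYt z
    · intro j p hp hpM
      apply mem_union_left
      exact hEs p hp (by exact_mod_cast hpM)
    · intro j p hp hpE
      exact hw p hp (fun h => hpE (mem_union_left _ h))
  set V : ℂ := ∏ j : Fin J, ((L : ℂ) * ∏ p ∈ E ∪ T, (1 - 1 / (p : ℂ))) with hV
  have hVeq : V = (((L * BE (E ∪ T)) ^ J : ℝ) : ℂ) := by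
    rw [hV, prod_const, card_univ, Fintype.card_fin]
    unfold BE
    push_cast
    rfl
  -- the bound for the product
  have hprod : ∀ z : Fin J → ℝ × ℝ, ‖(∏ j, (η j (z j).1 * η' j (z j).2)) *
      (V * ∏ p ∈ PY Y, kk L (fun _ => E ∪ T) (fun p _ => w p) z p)‖ ≤ bnd z := by
    intro z
    obtain ⟨ρ, τ, hρ, hτ, hfac⟩ := hfact z
    rw [hfac, norm_mul, norm_mul, norm_prod, norm_prod, hbnd]
    have hρn : ‖ρ‖ ≤ Real.exp (CJ J) := by
      have h1 : ‖ρ‖ ≤ ‖ρ - 1‖ + 1 := by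
        have := norm_add_le (ρ - 1) 1
        rwa [sub_add_cancel, norm_one] at this
      have h3 : Real.exp (CJ J / (N : ℕ)) ≤ Real.exp (CJ J) := by
        apply Real.exp_le_exp.mpr
        exact div_le_self hCJ hN1
      linarith
    have hfacj : ∀ j, ‖TTT L (z j).1 (z j).2 (E ∪ T) * (τ j * zf L (z j).1 (z j).2)‖ ≤
        c0 * (‖ss (z j).1‖ ^ 3 * ‖ss (z j).2‖ ^ 2) := by
      intro j
      rw [norm_mul, norm_mul]
      have h1 := norm_TTT_le (L := L) (by linarith) (z j).1 (z j).2 (E ∪ T) hETp hE1 hE2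
      have h2 : ‖τ j‖ ≤ 2 := by
        have h3 : ‖τ j‖ ≤ ‖τ j - 1‖ + 1 := by
          have := norm_add_le (τ j - 1) 1
          rwa [sub_add_cancel, norm_one] at this
        have h4 := hτ j
        linarith
      have h3 := hC L hL2 (z j).1 (z j).2
      calc ‖TTT L (z j).1 (z j).2 (E ∪ T)‖ * (‖τ j‖ * ‖zf L (z j).1 (z j).2‖) ≤
          (Real.exp 16 * ‖ss (z j).1‖) * (2 * (C * ‖ss (z j).1‖ ^ 2 * ‖ss (z j).2‖ ^ 2)) := by
            apply mul_le_mul h1 _ (by positivity) (by positivity)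
            exact mul_le_mul h2 h3 (norm_nonneg _) (by norm_num)
        _ = c0 * (‖ss (z j).1‖ ^ 3 * ‖ss (z j).2‖ ^ 2) := by rw [hc0]; ring
    calc (∏ j, ‖η j (z j).1 * η' j (z j).2‖) * (‖ρ‖ *
          ∏ j, ‖TTT L (z j).1 (z j).2 (E ∪ T) * (τ j * zf L (z j).1 (z j).2)‖) ≤
        (∏ j, ‖η j (z j).1 * η' j (z j).2‖) * (Real.exp (CJ J) *
          ∏ j, (c0 * (‖ss (z j).1‖ ^ 3 * ‖ss (z j).2‖ ^ 2))) := by
          apply mul_le_mul_of_nonneg_left _ (Finset.prod_nonneg (fun _ _ => norm_nonneg _))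
          apply mul_le_mul hρn _ (Finset.prod_nonneg (fun _ _ => norm_nonneg _)) (Real.exp_pos _).le
          exact Finset.prod_le_prod (fun _ _ => norm_nonneg _) (fun j _ => hfacj j)
      _ = Real.exp (CJ J) * ∏ j, (c0 * ((‖ss (z j).1‖ ^ 3 * ‖η j (z j).1‖) *
          (‖ss (z j).2‖ ^ 2 * ‖η' j (z j).2‖))) := by
          rw [mul_left_comm, ← Finset.prod_mul_distrib]
          congr 1
          refine Finset.prod_congr rfl (fun j _ => ?_)
          rw [norm_mul]; ring
  -- the removed primes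
  obtain ⟨κ, hκ⟩ : ∃ κ : ℝ, κ = 9 ^ T.card / ((∏ j, g j : ℕ) : ℝ) := ⟨_, rfl⟩
  have hsqf : Squarefree (∏ j, g j) := by
    apply Finset.squarefree_prod_of_pairwise_isCoprime
    · intro i _ j _ hij
      exact Nat.coprime_iff_isRelPrime.1 (hgc hij)
    · exact fun j _ => hgs j
  have hκ' : κ = ∏ p ∈ T, (9 / (p : ℝ)) := by
    rw [hκ, prod_div_distrib, prod_const]
    congr 1
    rw [← Nat.cast_prod, Nat.prod_primeFactors_of_squarefree hsqf]
  have hrem : ∀ z : Fin J → ℝ × ℝ, ‖∏ p ∈ T, ((w p : ℂ) * HH' g L z p)‖ ≤ κ := by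
    intro z
    rw [norm_prod, hκ']
    apply prod_le_prod (fun _ _ => norm_nonneg _)
    intro p hp
    have hpp := hTp p hp
    have hp0 : (0 : ℝ) < p := by exact_mod_cast hpp.pos
    have hp1 : (1 : ℝ) ≤ p := by exact_mod_cast hpp.one_lt.le
    rw [norm_mul, Complex.norm_real, Real.norm_eq_abs]
    have h1 := hw p hpp (hTE p hp)
    have h2 : |w p| ≤ 3 / p := by
      have h3 : |w p| ≤ |w p - 1 / p| + |1 / (p : ℝ)| := by
        have := abs_add_le (w p - 1 / p) (1 / p)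
        rwa [sub_add_cancel] at this
      have h4 : |1 / (p : ℝ)| = 1 / p := abs_of_pos (by positivity)
      have h5 : 2 / (p : ℝ) ^ 2 ≤ 2 / p := by
        apply div_le_div_of_nonneg_left zero_le_two hp0
        nlinarith
      have h6 : 3 / (p : ℝ) = 2 / p + 1 / p := by ring
      rw [h6]
      linarith
    calc |w p| * ‖HH' g L z p‖ ≤ 3 / p * 3 :=
          mul_le_mul h2 (norm_HH'_le g hgc hL0 z hpp) (norm_nonneg _) (by positivity)
      _ = 9 / p := by ring
  -- the sum as an integral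
  have hrep : ∀ S : Finset ℕ, ((sieveSum J F G L (fun _ => E) (wS g T w S) R : ℝ) : ℂ) =
      ∫ z : Fin J → ℝ × ℝ, (∏ j, (η j (z j).1 * η' j (z j).2)) *
        ∏ p ∈ PY Y, kk L (fun _ => E) (wS g T w S) z p := by
    intro S
    exact representation F G hL0 (fun _ => E) (wS g T w S) R Y hRY
      (fun j => (hF j).continuous) (fun j => (hG j).continuous) hFG η η' hηc hηc' hηint hηint'
      hηF hηG
  have hmain : (((L * BE (E ∪ T)) ^ J * cSum F G L E w R g : ℝ) : ℂ) =
      ∫ z : Fin J → ℝ × ℝ, ((∏ j, (η j (z j).1 * η' j (z j).2)) *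
        (V * ∏ p ∈ PY Y, kk L (fun _ => E ∪ T) (fun p _ => w p) z p)) *
        ∏ p ∈ T, ((w p : ℂ) * HH' g L z p) := by
    rw [cSum_eq F G L E w R g hgc hgs, Complex.ofReal_mul, ← hVeq, Complex.ofReal_sum]
    have h1 : ∀ S ∈ T.powerset, (((-1 : ℝ) ^ S.card *
        sieveSum J F G L (fun _ => E) (wS g T w S) R : ℝ) : ℂ) =
        ∫ z : Fin J → ℝ × ℝ, (-1 : ℂ) ^ S.card * ((∏ j, (η j (z j).1 * η' j (z j).2)) *
        ∏ p ∈ PY Y, kk L (fun _ => E) (wS g T w S) z p) := by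
      intro S _
      rw [integral_const_mul, ← hrep S]
      push_cast
      rfl
    rw [sum_congr rfl h1, ← integral_finsetSum, ← integral_const_mul]
    · refine integral_congr_ae (Filter.Eventually.of_forall (fun z => ?_))
      simp only
      have h2 := kk_sum g L E T w z Y hTY hTE
      have h3 : ∑ S ∈ T.powerset, (-1 : ℂ) ^ S.card * ((∏ j, (η j (z j).1 * η' j (z j).2)) *
          ∏ p ∈ PY Y, kk L (fun _ => E) (wS g T w S) z p) =
          (∏ j, (η j (z j).1 * η' j (z j).2)) * ∑ S ∈ T.powerset, (-1 : ℂ) ^ S.card *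
            ∏ p ∈ PY Y, kk L (fun _ => E) (wS g T w S) z p := by
        rw [mul_sum]
        exact sum_congr rfl fun S _ => by ring
      rw [h3, h2]
      ring
    · intro S _
      exact (integrable_kk hL0 _ _ Y η η' hηint hηint').const_mul _
  have habs : (L * BE (E ∪ T)) ^ J * |cSum F G L E w R g| =
      ‖(((L * BE (E ∪ T)) ^ J * cSum F G L E w R g : ℝ) : ℂ)‖ := by
    have hX : 0 ≤ (L * BE (E ∪ T)) ^ J := by
      apply pow_nonneg
      apply mul_nonneg hL0.le
      unfold BE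
      apply prod_nonneg
      intro p hp
      have hp1 : (1 : ℝ) ≤ p := by exact_mod_cast (hETp p hp).one_lt.le
      rw [sub_nonneg, div_le_one (by linarith)]
      exact hp1
    rw [Complex.norm_real, Real.norm_eq_abs, abs_mul, abs_of_nonneg hX]
  rw [habs, hmain]
  have hκ0 : 0 ≤ κ := by rw [hκ]; positivity
  refine (norm_integral_le_of_norm_le (hbndi.mul_const κ) (Eventually.of_forall fun z => ?_)).trans ?_
  · rw [norm_mul]
    exact mul_le_mul (hprod z) (hrem z) (norm_nonneg _) (hbnd0 z)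
  · rw [integral_mul_const, mul_div_assoc, ← hκ]
    apply mul_le_mul_of_nonneg_right _ hκ0
    linarith

end Pool.Agent.L7h80.UM
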