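import Mathlib
import Pool.Agent.L7h28.UM.Stm

/-!
# Uniform Maynard-Tao theorem of Linnik type (helper28): the part `S_P`

A common scale for several residue classes.
-/

set_option autoImplicit false

namespace Pool.Agent.L7h80.UM

open Finset Filter Pool.Agent.H378R2 Pool.Agent.L7h28.UM

lemma Phi_nn (u : ℝ) : 0 ≤ Phi u := le_max_left _ _

lemma Phi_ne {u : ℝ} (hu : 0 < u) (h : Phi u ≠ 0) : 1 < u ∧ u < 3 := by
  have h1 : 0 < Phi u := lt_of_le_of_ne (Phi_nn u) h.symm
  unfold Phi at h1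
  rw [lt_max_iff] at h1
  have h2 : 0 < 1 / 2 - |Real.log u - 1 / 2| := h1.resolve_left (lt_irrefl _)
  have h3 : |Real.log u - 1 / 2| < 1 / 2 := by linarith
  rw [abs_lt] at h3
  constructor
  · exact (Real.log_pos_iff hu.le).1 (by linarith)
  · have h4 : Real.log u < 1 := by linarith
    have h5 := (Real.log_lt_iff_lt_exp hu).1 h4
    have h6 := Real.exp_one_lt_d9
    linarith

lemma sum_Phi {y0 p : ℝ} (hy : 0 < y0) (hp : 0 < p) (T : ℕ) (h1 : 1 ≤ 2 * Real.log (p / y0))
    (h2 : 2 * Real.log (p / y0) ≤ T) :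
    1 / 2 ≤ ∑ t ∈ range (T + 1), Phi (p / (y0 * Real.exp ((t : ℝ) / 2))) := by
  set l := Real.log (p / y0) with hl
  have hPhi : ∀ t : ℕ, Phi (p / (y0 * Real.exp ((t : ℝ) / 2))) =
      max 0 (1 / 2 - |l - (t : ℝ) / 2 - 1 / 2|) := by
    intro t
    unfold Phi
    rw [← div_div, Real.log_div (by positivity) (Real.exp_pos _).ne', Real.log_exp]
  set t0 := ⌊2 * l⌋₊ with ht0
  have h3 : (t0 : ℝ) ≤ 2 * l := Nat.floor_le (by linarith)
  have h4 : 2 * l < t0 + 1 := Nat.lt_floor_add_one _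
  have h5 : 1 ≤ t0 := by
    rw [ht0, Nat.one_le_floor_iff]
    exact h1
  have h6 : t0 ≤ T := by
    have h7 : (t0 : ℝ) ≤ T := h3.trans h2
    exact_mod_cast h7
  have h7 : ({t0 - 1, t0} : Finset ℕ) ⊆ range (T + 1) := by
    intro t ht
    rw [mem_insert, mem_singleton] at ht
    rw [mem_range]
    omega
  refine le_trans ?_ (sum_le_sum_of_subset_of_nonneg h7 (fun t _ _ => Phi_nn _))
  rw [sum_pair (by omega), hPhi, hPhi]
  have h8 : ((t0 - 1 : ℕ) : ℝ) = t0 - 1 := by
    rw [Nat.cast_sub h5]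
    simp
  rw [h8]
  have e1 : |l - ((t0 : ℝ) - 1) / 2 - 1 / 2| = l - (t0 : ℝ) / 2 := by
    rw [abs_of_nonneg] <;> linarith
  have e2 : |l - (t0 : ℝ) / 2 - 1 / 2| = 1 / 2 - (l - (t0 : ℝ) / 2) := by
    rw [abs_of_nonpos] <;> linarith
  rw [e1, e2]
  have h9 := le_max_right 0 (1 / 2 - (l - (t0 : ℝ) / 2))
  have h10 := le_max_right 0 (1 / 2 - (1 / 2 - (l - (t0 : ℝ) / 2)))
  linarith

lemma CS_ge {y : ℝ} (hy : 0 < y) (Q b : ℕ) (S : Finset ℕ)
    (hS : ∀ p ∈ S, p.Prime ∧ p ≡ b [MOD Q]) :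
    ∑ p ∈ S, Phi ((p : ℝ) / y) * (Real.log p / p) ≤ CS y Q b / y := by
  classical
  have h1 : ∑ p ∈ S, Phi ((p : ℝ) / y) * (Real.log p / p) =
      ∑ p ∈ S.filter (fun p : ℕ => Phi ((p : ℝ) / y) ≠ 0), Phi ((p : ℝ) / y) * (Real.log p / p) := by
    rw [sum_filter]
    apply sum_congr rfl
    intro p _
    split_ifs with h
    · rfl
    · rw [not_not.1 h, zero_mul]
  rw [h1]
  unfold CS
  rw [sum_div]
  have hk : ∀ p ∈ S.filter (fun p : ℕ => Phi ((p : ℝ) / y) ≠ 0),
      p.Prime ∧ p ≡ b [MOD Q] ∧ y < (p : ℝ) ∧ (p : ℝ) < 3 * y := by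
    intro p hp
    rw [mem_filter] at hp
    have h2 := hS p hp.1
    have hp0 : (0 : ℝ) < p := by exact_mod_cast h2.1.pos
    have h3 := Phi_ne (by positivity) hp.2
    rw [one_lt_div hy, div_lt_iff₀ hy] at h3
    exact ⟨h2.1, h2.2, h3.1, h3.2⟩
  calc ∑ p ∈ S.filter (fun p : ℕ => Phi ((p : ℝ) / y) ≠ 0), Phi ((p : ℝ) / y) * (Real.log p / p)
      ≤ ∑ p ∈ S.filter (fun p : ℕ => Phi ((p : ℝ) / y) ≠ 0),
        Phi ((p : ℝ) / y) * ArithmeticFunction.vonMangoldt p / y := by
        apply sum_le_sum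
        intro p hp
        obtain ⟨hpp, -, h3, -⟩ := hk p hp
        rw [ArithmeticFunction.vonMangoldt_apply_prime hpp, mul_div_assoc]
        apply mul_le_mul_of_nonneg_left _ (Phi_nn _)
        exact div_le_div_of_nonneg_left (Real.log_natCast_nonneg p) hy h3.le
    _ ≤ _ := by
        apply sum_le_sum_of_subset_of_nonneg
        · intro p hp
          obtain ⟨hpp, h2, h3, h4⟩ := hk p hp
          rw [mem_filter, mem_Icc]
          exact ⟨⟨hpp.one_le, Nat.le_floor h4.le⟩, h2⟩
        · intro p _ _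
          have h5 := Phi_nn ((p : ℝ) / y)
          have h6 : 0 ≤ ArithmeticFunction.vonMangoldt p := ArithmeticFunction.vonMangoldt_nonneg
          positivity

/-- one progression, summed over the scales -/
lemma one_prog {z c : ℝ} {Z K T α Q b : ℕ} (hz3 : 3 ≤ z) (hZ : z ^ 2 ≤ Z)
    (hT : 2 * Real.log ((Z : ℝ) ^ K) ≤ T) (hα : 1 ≤ α) (hα' : (α : ℝ) ≤ z ^ (1 / 2 : ℝ))
    (hP : c / (Q.totient : ℝ) ≤
      ∑ p ∈ (Ioc Z (Z ^ K)).filter (fun p => p.Prime ∧ p ≡ b [MOD Q]), (1 : ℝ) / p)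
    (hQ : 1 ≤ Q) :
    c * Real.log z ≤ ∑ t ∈ range (T + 1),
      CS (α * (z * Real.exp ((t : ℝ) / 2))) Q b * (Q.totient : ℝ) / (α * (z * Real.exp ((t : ℝ) / 2))) := by
  have hz0 : 0 < z := by linarith
  have hα0 : (0 : ℝ) < α := by exact_mod_cast hα
  have hφ : (0 : ℝ) < Q.totient := by exact_mod_cast Nat.totient_pos.2 hQ
  set S := (Ioc Z (Z ^ K)).filter (fun p => p.Prime ∧ p ≡ b [MOD Q]) with hS
  have hSP : ∀ p ∈ S, p.Prime ∧ p ≡ b [MOD Q] := fun p hp => (mem_filter.1 hp).2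
  have hlz : 0 ≤ Real.log z := Real.log_nonneg (by linarith)
  have hmain : Real.log z * ∑ p ∈ S, (1 : ℝ) / p ≤
      ∑ t ∈ range (T + 1), CS (α * (z * Real.exp ((t : ℝ) / 2))) Q b /
        (α * (z * Real.exp ((t : ℝ) / 2))) := by
    calc Real.log z * ∑ p ∈ S, (1 : ℝ) / p
        ≤ ∑ p ∈ S, (Real.log p / p) *
          ∑ t ∈ range (T + 1), Phi ((p : ℝ) / (α * z * Real.exp ((t : ℝ) / 2))) := by
          rw [mul_sum]
          apply sum_le_sum
          intro p hp
          have hp1 := (mem_filter.1 hp).1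
          rw [mem_Ioc] at hp1
          have hp0 : (0 : ℝ) < p := by
            have := (hSP p hp).1.pos
            exact_mod_cast this
          have hZp : (Z : ℝ) < p := by exact_mod_cast hp1.1
          have hpZ : (p : ℝ) ≤ (Z : ℝ) ^ K := by exact_mod_cast hp1.2
          have hlogp : 2 * Real.log z ≤ Real.log p := by
            have h1 : Real.log (z ^ 2) ≤ Real.log p := Real.log_le_log (by positivity) (by linarith)
            rw [Real.log_pow] at h1
            exact_mod_cast h1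
          have haz : 0 < (α : ℝ) * z := by positivity
          have h2 := sum_Phi haz hp0 T (by
            have h3 : z ^ (1 / 2 : ℝ) ≤ (p : ℝ) / (α * z) := by
              rw [le_div_iff₀ haz]
              calc z ^ (1 / 2 : ℝ) * (α * z) ≤ z ^ (1 / 2 : ℝ) * (z ^ (1 / 2 : ℝ) * z) := by gcongr
                _ = z ^ 2 := by
                    rw [← mul_assoc, ← Real.rpow_add hz0]
                    norm_num
                    ring
                _ ≤ p := by linarith
            have h4 : Real.log (z ^ (1 / 2 : ℝ)) ≤ Real.log ((p : ℝ) / (α * z)) :=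
              Real.log_le_log (by positivity) h3
            rw [Real.log_rpow hz0] at h4
            have h5 : 1 ≤ Real.log z := by
              rw [Real.le_log_iff_exp_le hz0]
              linarith [Real.exp_one_lt_d9]
            linarith) (by
            refine le_trans ?_ hT
            apply mul_le_mul_of_nonneg_left _ zero_le_two
            apply Real.log_le_log (by positivity)
            rw [div_le_iff₀ haz]
            have h6 : 1 ≤ (α : ℝ) * z := by
              have : (1 : ℝ) ≤ α := by exact_mod_cast hα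
              nlinarith
            have h7 : 0 ≤ (Z : ℝ) ^ K := by positivity
            nlinarith)
          have h8 : (Real.log z) * (1 / (p : ℝ)) = (2 * Real.log z / p) * (1 / 2) := by ring
          rw [h8]
          apply mul_le_mul _ h2 (by norm_num) (by
            have := Real.log_natCast_nonneg p
            positivity)
          exact div_le_div_of_nonneg_right hlogp hp0.le
      _ = ∑ t ∈ range (T + 1), ∑ p ∈ S,
          Phi ((p : ℝ) / (α * (z * Real.exp ((t : ℝ) / 2)))) * (Real.log p / p) := by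
          rw [sum_comm]
          apply sum_congr rfl
          intro p _
          rw [mul_sum]
          apply sum_congr rfl
          intro t _
          rw [mul_assoc (α : ℝ)]
          ring
      _ ≤ _ := by
          apply sum_le_sum
          intro t _
          apply CS_ge (by positivity) Q b S hSP
  have h9 : c * Real.log z ≤ (Q.totient : ℝ) * (Real.log z * ∑ p ∈ S, (1 : ℝ) / p) := by
    have h10 := mul_le_mul_of_nonneg_left hP hlz
    calc c * Real.log z = Q.totient * (Real.log z * (c / Q.totient)) := by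
          field_simp
      _ ≤ _ := mul_le_mul_of_nonneg_left h10 hφ.le
  refine h9.trans ?_
  refine (mul_le_mul_of_nonneg_left hmain hφ.le).trans ?_
  rw [mul_sum]
  apply le_of_eq
  apply sum_congr rfl
  intro t _
  ring

theorem s_P : S_P := by
  rintro ⟨K, c, hK, hc, z0, hpage⟩
  have hK0 : (0 : ℝ) < K := by exact_mod_cast hK
  refine ⟨3 * K + 2, c / (8 * K), by omega, by positivity, ?_⟩
  filter_upwards [eventually_ge_atTop (max 3 (z0 : ℝ))] with z hz
  have hz3 : 3 ≤ z := (le_max_left _ _).trans hz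
  have hz0 : 0 < z := by linarith
  set Z : ℕ := ⌈z ^ 2⌉₊ with hZdef
  have hZ : z ^ 2 ≤ Z := Nat.le_ceil _
  have hZz0 : z0 ≤ Z := by
    have h1 : (z0 : ℝ) ≤ Z := by
      have h2 : (z0 : ℝ) ≤ z := (le_max_right _ _).trans hz
      nlinarith
    exact_mod_cast h1
  have hZ3 : (Z : ℝ) ≤ z ^ 3 := by
    have h1 : (Z : ℝ) < z ^ 2 + 1 := Nat.ceil_lt_add_one (by positivity)
    nlinarith [sq_nonneg z]
  obtain ⟨q₁, hq₁, hq⟩ := hpage Z hZz0
  refine ⟨q₁, hq₁, ?_⟩
  intro k w α Q b hw hα hQ hb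
  set L := Real.log z with hL
  have hL1 : 1 ≤ L := by
    rw [hL, Real.le_log_iff_exp_le hz0]
    linarith [Real.exp_one_lt_d9]
  set T : ℕ := ⌈6 * K * L⌉₊ with hT
  have hT1 : 6 * K * L ≤ T := Nat.le_ceil _
  have hT2 : (T : ℝ) < 6 * K * L + 1 := Nat.ceil_lt_add_one (by positivity)
  have hK1 : (1 : ℝ) ≤ K := by exact_mod_cast hK
  have hKL : 1 ≤ K * L := by nlinarith
  have hTle : ((T + 1 : ℕ) : ℝ) ≤ 8 * (K * L) := by
    push_cast
    linarith
  have hZpos : (0 : ℝ) < Z := lt_of_lt_of_le (by positivity) hZ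
  have hlogZ : 2 * Real.log ((Z : ℝ) ^ K) ≤ T := by
    rw [Real.log_pow]
    have h1 : Real.log Z ≤ 3 * L := by
      have h2 := Real.log_le_log hZpos hZ3
      rw [Real.log_pow] at h2
      exact_mod_cast h2
    have h3 : (K : ℝ) * Real.log Z ≤ K * (3 * L) := mul_le_mul_of_nonneg_left h1 hK0.le
    linarith
  have hone : ∀ i, c * L ≤ ∑ t ∈ range (T + 1),
      CS (α i * (z * Real.exp ((t : ℝ) / 2))) (Q i) (b i) * ((Q i).totient : ℝ) /
        (α i * (z * Real.exp ((t : ℝ) / 2))) := by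
    intro i
    apply one_prog hz3 hZ hlogZ (hα i).1 _ _ (hQ i).1
    · refine (hα i).2.trans ?_
      apply Real.rpow_le_rpow_of_exponent_le (by linarith) (by norm_num)
    · apply hq (Q i) (b i) (hQ i).1 _ (hQ i).2.2 (hb i)
      have h1 : ((Q i : ℝ)) ^ 16 ≤ Z := by
        calc (Q i : ℝ) ^ 16 ≤ (z ^ (1 / 100 : ℝ)) ^ 16 :=
              pow_le_pow_left₀ (Nat.cast_nonneg _) (hQ i).2.1 16
          _ = z ^ (16 / 100 : ℝ) := by
              rw [← Real.rpow_natCast, ← Real.rpow_mul hz0.le]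
              norm_num
          _ ≤ z ^ (2 : ℝ) := Real.rpow_le_rpow_of_exponent_le (by linarith) (by norm_num)
          _ = z ^ 2 := by norm_num
          _ ≤ Z := hZ
      exact_mod_cast h1
  -- the average over the scales
  have hav : c * L * ∑ i, w i ≤ ∑ t ∈ range (T + 1), ∑ i, w i *
      (CS (α i * (z * Real.exp ((t : ℝ) / 2))) (Q i) (b i) * ((Q i).totient : ℝ) /
        (α i * (z * Real.exp ((t : ℝ) / 2)))) := by
    rw [sum_comm, mul_sum]
    apply sum_le_sum
    intro i _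
    rw [← mul_sum, mul_comm]
    exact mul_le_mul_of_nonneg_left (hone i) (hw i)
  have hex : ∃ t ∈ range (T + 1), c / (8 * K) * ∑ i, w i ≤ ∑ i, w i *
      (CS (α i * (z * Real.exp ((t : ℝ) / 2))) (Q i) (b i) * ((Q i).totient : ℝ) /
        (α i * (z * Real.exp ((t : ℝ) / 2)))) := by
    apply exists_le_of_sum_le (nonempty_range_iff.2 (by omega))
    refine le_trans ?_ hav
    rw [sum_const, nsmul_eq_mul, card_range]
    have hw0 : 0 ≤ ∑ i, w i := sum_nonneg fun i _ => hw i
    have h1 : 0 ≤ c / (8 * K) * ∑ i, w i := by positivity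
    calc ((T + 1 : ℕ) : ℝ) * (c / (8 * K) * ∑ i, w i) ≤ (8 * (K * L)) * (c / (8 * K) * ∑ i, w i) :=
          mul_le_mul_of_nonneg_right hTle h1
      _ = c * L * ∑ i, w i := by
          field_simp
  obtain ⟨t, ht, hle⟩ := hex
  refine ⟨z * Real.exp ((t : ℝ) / 2), ?_, ?_, hle⟩
  · have h1 : 1 ≤ Real.exp ((t : ℝ) / 2) := Real.one_le_exp (by positivity)
    nlinarith
  · have h2 : (t : ℝ) ≤ T := by
      have := mem_range.1 ht
      exact_mod_cast (by omega : t ≤ T)
    have h3 : Real.exp ((t : ℝ) / 2) ≤ Real.exp ((3 * K + 1 : ℝ) * L) := by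
      apply Real.exp_le_exp.2
      linarith
    have h4 : Real.exp ((3 * K + 1 : ℝ) * L) = z ^ (3 * K + 1) := by
      rw [hL, mul_comm, Real.exp_mul, Real.exp_log hz0]
      rw [← Real.rpow_natCast]
      push_cast
      rfl
    rw [h4] at h3
    calc z * Real.exp ((t : ℝ) / 2) ≤ z * z ^ (3 * K + 1) := mul_le_mul_of_nonneg_left h3 hz0.le
      _ = z ^ (3 * K + 2) := by ring

end Pool.Agent.L7h80.UM
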