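import Mathlib
import Pool.Agent.L7h28.UM.Stm2
import Pool.Agent.L7h80.UM.CB

/-!
# Uniform Maynard-Tao theorem of Linnik type (helper28), second round: the part `S_CP`

Bound for the sieve sum over the values with `p ∣ L i`.
-/

set_option autoImplicit false

namespace Pool.Agent.L7h80.UM

open Finset Filter MeasureTheory Pool.Agent.H378R2 Pool.Agent.H378R2.M5 Pool.Agent.L7h28.UM
open scoped ContDiff

variable {J : ℕ}

/-- the weights with the prime `p` only in the `i`-th modulus -/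
noncomputable def wP (w : ℕ → ℝ) (i : Fin J) (p : ℕ) (q : ℕ) (j : Fin J) : ℝ :=
  if q = p then (if j = i then 1 else 0) else w q

theorem wP_prod (w : ℕ → ℝ) (i : Fin J) {p : ℕ} (hp : p.Prime) (l : Fin J → ℕ)
    (hl0 : ∀ j, l j ≠ 0) :
    w p * ∏ j, ∏ q ∈ (l j).primeFactors, wP w i p q j =
      if ∀ j, j ≠ i → ¬ p ∣ l j then (∏ j, ∏ q ∈ (l j).primeFactors, w q) *
        (if p ∣ l i then 1 else w p) else 0 := by
  classical
  have hmem : ∀ j, p ∈ (l j).primeFactors ↔ p ∣ l j := fun j =>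
    ⟨fun h => Nat.dvd_of_mem_primeFactors h, fun h => Nat.mem_primeFactors.2 ⟨hp, h, hl0 j⟩⟩
  have hnot : ∀ j, ¬ p ∣ l j → ∏ q ∈ (l j).primeFactors, wP w i p q j =
      ∏ q ∈ (l j).primeFactors, w q := by
    intro j hj
    apply prod_congr rfl
    intro q hq
    unfold wP
    rw [if_neg]
    rintro rfl
    exact hj ((hmem j).1 hq)
  split_ifs with h1 h2
  · -- `p ∣ l i`
    rw [mul_one]
    rw [← mul_prod_erase univ _ (mem_univ i), ← mul_prod_erase univ (fun j => ∏ q ∈ (l j).primeFactors, w q)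
      (mem_univ i)]
    have e1 : ∏ j ∈ univ.erase i, ∏ q ∈ (l j).primeFactors, wP w i p q j =
        ∏ j ∈ univ.erase i, ∏ q ∈ (l j).primeFactors, w q :=
      prod_congr rfl fun j hj => hnot j (h1 j (ne_of_mem_erase hj))
    have e2 : w p * ∏ q ∈ (l i).primeFactors, wP w i p q i = ∏ q ∈ (l i).primeFactors, w q := by
      rw [← mul_prod_erase _ _ ((hmem i).2 h2), ← mul_prod_erase (l i).primeFactors w ((hmem i).2 h2)]
      have e3 : wP w i p p i = 1 := by
        unfold wP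
        rw [if_pos rfl, if_pos rfl]
      rw [e3, one_mul]
      congr 1
      apply prod_congr rfl
      intro q hq
      unfold wP
      rw [if_neg (ne_of_mem_erase hq)]
    rw [e1, ← mul_assoc, e2]
  · rw [mul_comm]
    congr 1
    apply prod_congr rfl
    intro j _
    by_cases hj : j = i
    · rw [hj]
      exact hnot i h2
    · exact hnot j (h1 j hj)
  · push Not at h1
    obtain ⟨j, hj, hjp⟩ := h1
    apply mul_eq_zero_of_right
    apply prod_eq_zero (mem_univ j)
    apply prod_eq_zero ((hmem j).2 hjp)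
    unfold wP
    rw [if_pos rfl, if_neg hj]

open Classical in
theorem cSumP_eq (F G : Fin J → ℝ → ℝ) (L : ℝ) (E : Finset ℕ) (w : ℕ → ℝ) (R : ℕ) (i : Fin J)
    {p : ℕ} (hp : p.Prime) :
    cSumP F G L E w R i p = w p * sieveSum J F G L (fun _ => E) (wP w i p) R := by
  unfold cSumP sieveSum
  simp_rw [mul_sum]
  apply sum_congr rfl
  intro d hd
  apply sum_congr rfl
  intro e he
  have hd0 : ∀ j, d j ≠ 0 := by
    intro j
    have h1 := Fintype.mem_piFinset.1 hd j
    unfold adm at h1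
    rw [mem_filter, mem_Icc] at h1
    omega
  have he0 : ∀ j, e j ≠ 0 := by
    intro j
    have h1 := Fintype.mem_piFinset.1 he j
    unfold adm at h1
    rw [mem_filter, mem_Icc] at h1
    omega
  by_cases hPC : PC d e
  · have h1 := wP_prod w i hp (fun j => Nat.lcm (d j) (e j))
      (fun j => Nat.lcm_ne_zero (hd0 j) (he0 j))
    have hPC' : Pairwise (fun i j => (Nat.lcm (d i) (e i)).Coprime (Nat.lcm (d j) (e j))) := hPC
    rw [if_pos hPC', prod_mul_distrib, mul_left_comm (w p), h1]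
    by_cases h3 : ∀ j, j ≠ i → ¬ p ∣ Nat.lcm (d j) (e j)
    · rw [if_pos ⟨hPC, h3⟩, if_pos h3]
      unfold wt
      ring
    · rw [if_neg (fun h => h3 h.2), if_neg h3, mul_zero]
  · rw [if_neg (fun h => hPC h.1)]
    have hPC' : ¬ Pairwise (fun i j => (Nat.lcm (d i) (e i)).Coprime (Nat.lcm (d j) (e j))) := hPC
    rw [if_neg hPC', mul_zero]

theorem kk_P (L : ℝ) (E : Finset ℕ) (w : ℕ → ℝ) (z : Fin J → ℝ × ℝ) (Y : ℕ) (i : Fin J) {p : ℕ}
    (hpY : p ∈ PY Y) (hpE : p ∉ E) :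
    ∏ q ∈ PY Y, kk L (fun _ => E) (wP w i p) z q =
      (∏ q ∈ PY Y, kk L (fun _ => insert p E) (fun q _ => w q) z q) *
        ((1 - xp L (z i).1 p) * (1 - xp L (z i).2 p)) := by
  classical
  rw [← mul_prod_erase _ _ hpY, ← mul_prod_erase _ (fun q => kk L (fun _ => insert p E) (fun q _ => w q) z q) hpY]
  have e1 : ∏ q ∈ (PY Y).erase p, kk L (fun _ => E) (wP w i p) z q =
      ∏ q ∈ (PY Y).erase p, kk L (fun _ => insert p E) (fun q _ => w q) z q := by
    apply prod_congr rfl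
    intro q hq
    have hqp := ne_of_mem_erase hq
    unfold kk wP
    simp only [mem_insert, hqp, false_or, if_false]
  have e2 : kk L (fun _ => insert p E) (fun q _ => w q) z p = 1 := by
    unfold kk
    simp only [mem_insert_self, if_true]
    simp
  have e3 : kk L (fun _ => E) (wP w i p) z p = (1 - xp L (z i).1 p) * (1 - xp L (z i).2 p) := by
    unfold kk wP
    simp only [if_neg hpE, if_true]
    rw [sum_eq_single i]
    · rw [if_pos rfl, Complex.ofReal_one]
      ring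
    · intro j _ hj
      rw [if_neg hj]
      simp
    · intro h
      exact absurd (mem_univ i) h
  rw [e1, e2, e3]
  ring

set_option maxHeartbeats 1000000 in
theorem s_CP : S_CP := by
  classical
  intro J F G hF hG hFc hGc
  choose η hηc hηi hηF hηF' using fun j => fourier_data (F j) (hF j) (hFc j)
  choose η' hηc' hηi' hηG hηG' using fun j => fourier_data (G j) (hG j) (hGc j)
  obtain ⟨C, hC1, hC⟩ := zf_bound
  set N : ℕ := 32 * J + 2 with hN
  have hN0 : (0 : ℝ) < N := by rw [hN]; positivity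
  have hN1 : (1 : ℝ) ≤ N := by
    have : 1 ≤ N := by omega
    exact_mod_cast this
  set c0 : ℝ := Real.exp 16 * (2 * C) with hc0
  have hc00 : 0 ≤ c0 := by positivity
  set bnd : (Fin J → ℝ × ℝ) → ℝ := fun z => Real.exp (CJ J) *
    ∏ j, (c0 * ((‖ss (z j).1‖ ^ 3 * ‖η j (z j).1‖) * (‖ss (z j).2‖ ^ 2 * ‖η' j (z j).2‖))) with hbnd
  set bnd' : (Fin J → ℝ × ℝ) → ℝ := fun z => Real.exp (CJ J) *
    ∏ j, (c0 * ((‖ss (z j).1‖ ^ 4 * ‖η j (z j).1‖) * (‖ss (z j).2‖ ^ 3 * ‖η' j (z j).2‖))) with hbnd'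
  have hbnd0 : ∀ z, 0 ≤ bnd z := by
    intro z
    rw [hbnd]
    positivity
  have hbnd0' : ∀ z, 0 ≤ bnd' z := by
    intro z
    rw [hbnd']
    positivity
  have hbndi : Integrable bnd' := by
    apply Integrable.const_mul
    apply Integrable.fintype_prod (f := fun j (z : ℝ × ℝ) =>
      c0 * ((‖ss z.1‖ ^ 4 * ‖η j z.1‖) * (‖ss z.2‖ ^ 3 * ‖η' j z.2‖)))
    intro j
    exact ((hηi j 4).mul_prod (hηi' j 3)).const_mul c0
  have hbb : ∀ (i : Fin J) (z : Fin J → ℝ × ℝ), bnd z * (‖ss (z i).1‖ * ‖ss (z i).2‖) ≤ bnd' z := by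
    intro i z
    rw [hbnd, hbnd']
    simp only
    rw [mul_assoc]
    apply mul_le_mul_of_nonneg_left _ (Real.exp_pos _).le
    rw [← mul_prod_erase univ _ (mem_univ i), ← mul_prod_erase univ (fun j => c0 * ((‖ss (z j).1‖ ^ 4 *
      ‖η j (z j).1‖) * (‖ss (z j).2‖ ^ 3 * ‖η' j (z j).2‖))) (mem_univ i)]
    have h1 : ∏ j ∈ univ.erase i, (c0 * ((‖ss (z j).1‖ ^ 3 * ‖η j (z j).1‖) *
        (‖ss (z j).2‖ ^ 2 * ‖η' j (z j).2‖))) ≤ ∏ j ∈ univ.erase i, (c0 * ((‖ss (z j).1‖ ^ 4 *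
        ‖η j (z j).1‖) * (‖ss (z j).2‖ ^ 3 * ‖η' j (z j).2‖))) := by
      apply Finset.prod_le_prod
      · intro j _
        positivity
      · intro j _
        apply mul_le_mul_of_nonneg_left _ hc00
        apply mul_le_mul _ _ (by positivity) (by positivity)
        · exact mul_le_mul_of_nonneg_right (pow_le_pow_right₀ (one_le_norm_ss _) (by norm_num))
            (norm_nonneg _)
        · exact mul_le_mul_of_nonneg_right (pow_le_pow_right₀ (one_le_norm_ss _) (by norm_num))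
            (norm_nonneg _)
    calc c0 * (‖ss (z i).1‖ ^ 3 * ‖η i (z i).1‖ * (‖ss (z i).2‖ ^ 2 * ‖η' i (z i).2‖)) *
          (∏ j ∈ univ.erase i, (c0 * ((‖ss (z j).1‖ ^ 3 * ‖η j (z j).1‖) *
        (‖ss (z j).2‖ ^ 2 * ‖η' j (z j).2‖)))) * (‖ss (z i).1‖ * ‖ss (z i).2‖) =
        c0 * (‖ss (z i).1‖ ^ 4 * ‖η i (z i).1‖ * (‖ss (z i).2‖ ^ 3 * ‖η' i (z i).2‖)) *
          (∏ j ∈ univ.erase i, (c0 * ((‖ss (z j).1‖ ^ 3 * ‖η j (z j).1‖) *
        (‖ss (z j).2‖ ^ 2 * ‖η' j (z j).2‖)))) := by ring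
      _ ≤ _ := mul_le_mul_of_nonneg_left h1 (by positivity)
  have hCJ : 0 ≤ CJ J := by rw [CJ]; positivity
  have hηint : ∀ j, Integrable (η j) := by
    intro j
    have h1 := hηi j 0
    simp only [pow_zero, one_mul] at h1
    exact (integrable_norm_iff (hηc j).aestronglyMeasurable).mp h1
  have hηint' : ∀ j, Integrable (η' j) := by
    intro j
    have h1 := hηi' j 0
    simp only [pow_zero, one_mul] at h1
    exact (integrable_norm_iff (hηc' j).aestronglyMeasurable).mp h1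
  have hI0 : 0 ≤ ∫ z, bnd' z := integral_nonneg hbnd0'
  refine ⟨12 * 2 ^ J * ((∫ z, bnd' z) + 1), 1 / N, by positivity, by positivity, ?_⟩
  intro L E w R i p hδL hFG hEp hEs hp hpE hE1 hE2 hw
  rw [one_div_one_div] at hδL hEs
  have hL2 : 2 ≤ L := by
    refine le_trans ?_ hδL
    have : 2 ≤ N := by omega
    exact_mod_cast this
  have hL0 : 0 < L := by linarith
  have hETp : ∀ q ∈ insert p E, q.Prime := by
    intro q hq
    rcases mem_insert.1 hq with h | h
    · rw [h]; exact hp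
    · exact hEp q h
  -- choice of Y
  obtain ⟨Y0, hY0⟩ := exists_tail hL0 1 one_pos
  set Y : ℕ := max Y0 (max R ((insert p E).sup id)) with hY
  have hRY : R ≤ Y := (le_max_left _ _).trans (le_max_right _ _)
  have hETY : insert p E ⊆ PY Y := by
    intro q hq
    rw [PY, Finset.mem_filter, Finset.mem_Icc]
    refine ⟨⟨(hETp q hq).one_lt.le, ?_⟩, hETp q hq⟩
    have h1 : q ≤ (insert p E).sup id := Finset.le_sup (f := id) hq
    exact h1.trans ((le_max_right _ _).trans (le_max_right _ _))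
  have hpY : p ∈ PY Y := hETY (mem_insert_self _ _)
  have hYt := hY0 Y (le_max_left _ _)
  -- factorization
  have hfact : ∀ (z : Fin J → ℝ × ℝ), ∃ (ρ : ℂ) (τ : Fin J → ℂ),
      ‖ρ - 1‖ ≤ Real.exp (CJ J / (N : ℕ)) - 1 ∧ (∀ j, ‖τ j - 1‖ ≤ 1) ∧
      (∏ j : Fin J, ((L : ℂ) * ∏ p ∈ insert p E, (1 - 1 / (p : ℂ)))) *
        ∏ q ∈ PY Y, kk L (fun _ => insert p E) (fun q _ => w q) z q =
        ρ * ∏ j, (TTT L (z j).1 (z j).2 (insert p E) * (τ j * zf L (z j).1 (z j).2)) := by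
    intro z
    apply factorization hL0 (fun _ => insert p E) (fun q _ => w q) N Y (by omega) (by omega)
      1 _ _ (fun _ => hETY) hYt z
    · intro j q hq hqM
      apply mem_insert_of_mem
      exact hEs q hq (by exact_mod_cast hqM)
    · intro j q hq hqE
      exact hw q hq (fun h => hqE (mem_insert_of_mem h))
  set V : ℂ := ∏ j : Fin J, ((L : ℂ) * ∏ p ∈ insert p E, (1 - 1 / (p : ℂ))) with hV
  have hVeq : V = (((L * BE (insert p E)) ^ J : ℝ) : ℂ) := by
    rw [hV, prod_const, card_univ, Fintype.card_fin]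
    unfold BE
    push_cast
    rfl
  -- the bound for the product
  have hprod : ∀ z : Fin J → ℝ × ℝ, ‖(∏ j, (η j (z j).1 * η' j (z j).2)) *
      (V * ∏ q ∈ PY Y, kk L (fun _ => insert p E) (fun q _ => w q) z q)‖ ≤ bnd z := by
    intro z
    obtain ⟨ρ, τ, hρ, hτ, hfac⟩ := hfact z
    rw [hfac, norm_mul, norm_mul, norm_prod, norm_prod, hbnd]
    have hρn : ‖ρ‖ ≤ Real.exp (CJ J) := by
      have h1 : ‖ρ‖ ≤ ‖ρ - 1‖ + 1 := by
        have := norm_add_le (ρ - 1) 1
        rwa [sub_add_cancel, norm_one] at this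
      have h3 : Real.exp (CJ J / (N : ℕ)) ≤ Real.exp (CJ J) := by
        apply Real.exp_le_exp.mpr
        exact div_le_self hCJ hN1
      linarith
    have hfacj : ∀ j, ‖TTT L (z j).1 (z j).2 (insert p E) * (τ j * zf L (z j).1 (z j).2)‖ ≤
        c0 * (‖ss (z j).1‖ ^ 3 * ‖ss (z j).2‖ ^ 2) := by
      intro j
      rw [norm_mul, norm_mul]
      have h1 := norm_TTT_le (L := L) (by linarith) (z j).1 (z j).2 (insert p E) hETp hE1 hE2
      have h2 : ‖τ j‖ ≤ 2 := by
        have h3 : ‖τ j‖ ≤ ‖τ j - 1‖ + 1 := by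
          have := norm_add_le (τ j - 1) 1
          rwa [sub_add_cancel, norm_one] at this
        have h4 := hτ j
        linarith
      have h3 := hC L hL2 (z j).1 (z j).2
      calc ‖TTT L (z j).1 (z j).2 (insert p E)‖ * (‖τ j‖ * ‖zf L (z j).1 (z j).2‖) ≤
          (Real.exp 16 * ‖ss (z j).1‖) * (2 * (C * ‖ss (z j).1‖ ^ 2 * ‖ss (z j).2‖ ^ 2)) := by
            apply mul_le_mul h1 _ (by positivity) (by positivity)
            exact mul_le_mul h2 h3 (norm_nonneg _) (by norm_num)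
        _ = c0 * (‖ss (z j).1‖ ^ 3 * ‖ss (z j).2‖ ^ 2) := by rw [hc0]; ring
    calc (∏ j, ‖η j (z j).1 * η' j (z j).2‖) * (‖ρ‖ *
          ∏ j, ‖TTT L (z j).1 (z j).2 (insert p E) * (τ j * zf L (z j).1 (z j).2)‖) ≤
        (∏ j, ‖η j (z j).1 * η' j (z j).2‖) * (Real.exp (CJ J) *
          ∏ j, (c0 * (‖ss (z j).1‖ ^ 3 * ‖ss (z j).2‖ ^ 2))) := by
          apply mul_le_mul_of_nonneg_left _ (Finset.prod_nonneg (fun _ _ => norm_nonneg _))
          apply mul_le_mul hρn _ (Finset.prod_nonneg (fun _ _ => norm_nonneg _)) (Real.exp_pos _).le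
          exact Finset.prod_le_prod (fun _ _ => norm_nonneg _) (fun j _ => hfacj j)
      _ = Real.exp (CJ J) * ∏ j, (c0 * ((‖ss (z j).1‖ ^ 3 * ‖η j (z j).1‖) *
          (‖ss (z j).2‖ ^ 2 * ‖η' j (z j).2‖))) := by
          rw [mul_left_comm, ← Finset.prod_mul_distrib]
          congr 1
          refine Finset.prod_congr rfl (fun j _ => ?_)
          rw [norm_mul]; ring
  -- the sum as an integral
  have hrep : ((sieveSum J F G L (fun _ => E) (wP w i p) R : ℝ) : ℂ) =
      ∫ z : Fin J → ℝ × ℝ, (∏ j, (η j (z j).1 * η' j (z j).2)) *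
        ∏ q ∈ PY Y, kk L (fun _ => E) (wP w i p) z q := by
    exact representation F G hL0 (fun _ => E) (wP w i p) R Y hRY
      (fun j => (hF j).continuous) (fun j => (hG j).continuous) hFG η η' hηc hηc' hηint hηint'
      hηF hηG
  have hmain : (((L * BE (insert p E)) ^ J * cSumP F G L E w R i p : ℝ) : ℂ) =
      (w p : ℂ) * ∫ z : Fin J → ℝ × ℝ, ((∏ j, (η j (z j).1 * η' j (z j).2)) *
        (V * ∏ q ∈ PY Y, kk L (fun _ => insert p E) (fun q _ => w q) z q)) *
        ((1 - xp L (z i).1 p) * (1 - xp L (z i).2 p)) := by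
    rw [cSumP_eq F G L E w R i hp, Complex.ofReal_mul, ← hVeq, Complex.ofReal_mul, hrep,
      mul_left_comm, ← integral_const_mul]
    congr 1
    refine integral_congr_ae (Filter.Eventually.of_forall (fun z => ?_))
    simp only
    rw [kk_P L E w z Y i hpY hpE]
    ring
  have hp0 : (0 : ℝ) < p := by exact_mod_cast hp.pos
  have hp2 : (2 : ℝ) ≤ p := by exact_mod_cast hp.two_le
  have hBE0 : ∀ S : Finset ℕ, (∀ q ∈ S, q.Prime) → 0 ≤ BE S := by
    intro S hS
    unfold BE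
    apply prod_nonneg
    intro q hq
    have hp1 : (1 : ℝ) ≤ q := by exact_mod_cast (hS q hq).one_lt.le
    rw [sub_nonneg, div_le_one (by linarith)]
    exact hp1
  have hX : 0 ≤ (L * BE (insert p E)) ^ J := pow_nonneg (mul_nonneg hL0.le (hBE0 _ hETp)) _
  have habs : (L * BE (insert p E)) ^ J * |cSumP F G L E w R i p| =
      ‖(((L * BE (insert p E)) ^ J * cSumP F G L E w R i p : ℝ) : ℂ)‖ := by
    rw [Complex.norm_real, Real.norm_eq_abs, abs_mul, abs_of_nonneg hX]
  have hwp : |w p| ≤ 3 / p := by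
    have h1 := hw p hp hpE
    have h3 : |w p| ≤ |w p - 1 / p| + |1 / (p : ℝ)| := by
      have := abs_add_le (w p - 1 / p) (1 / p)
      rwa [sub_add_cancel] at this
    have h4 : |1 / (p : ℝ)| = 1 / p := abs_of_pos (by positivity)
    have h5 : 2 / (p : ℝ) ^ 2 ≤ 2 / p := by
      apply div_le_div_of_nonneg_left zero_le_two hp0
      nlinarith
    have h6 : 3 / (p : ℝ) = 2 / p + 1 / p := by ring
    rw [h6]
    linarith
  have hlog : 0 ≤ Real.log p / L := div_nonneg (Real.log_natCast_nonneg p) hL0.le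
  obtain ⟨κ, hκ⟩ : ∃ κ : ℝ, κ = 4 * (Real.log p / L) ^ 2 := ⟨_, rfl⟩
  have hκ0 : 0 ≤ κ := by rw [hκ]; positivity
  have hint : ‖∫ z : Fin J → ℝ × ℝ, ((∏ j, (η j (z j).1 * η' j (z j).2)) *
        (V * ∏ q ∈ PY Y, kk L (fun _ => insert p E) (fun q _ => w q) z q)) *
        ((1 - xp L (z i).1 p) * (1 - xp L (z i).2 p))‖ ≤ (∫ z, bnd' z) * κ := by
    rw [← integral_mul_const]
    refine norm_integral_le_of_norm_le (hbndi.mul_const κ) (Eventually.of_forall fun z => ?_)
    rw [norm_mul, norm_mul (1 - xp L (z i).1 p)]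
    have h1 := norm_one_sub_xp_le hL0 (z i).1 p
    have h2 := norm_one_sub_xp_le hL0 (z i).2 p
    have h3 : ‖1 - xp L (z i).1 p‖ * ‖1 - xp L (z i).2 p‖ ≤
        (2 * ‖ss (z i).1‖ * (Real.log p / L)) * (2 * ‖ss (z i).2‖ * (Real.log p / L)) :=
      mul_le_mul h1 h2 (norm_nonneg _) (by positivity)
    calc _ ≤ bnd z * ((2 * ‖ss (z i).1‖ * (Real.log p / L)) * (2 * ‖ss (z i).2‖ * (Real.log p / L))) :=
          mul_le_mul (hprod z) h3 (by positivity) (hbnd0 z)
      _ = bnd z * (‖ss (z i).1‖ * ‖ss (z i).2‖) * κ := by rw [hκ]; ring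
      _ ≤ bnd' z * κ := mul_le_mul_of_nonneg_right (hbb i z) hκ0
  have hfin : (L * BE (insert p E)) ^ J * |cSumP F G L E w R i p| ≤
      3 / p * ((∫ z, bnd' z) * κ) := by
    rw [habs, hmain, norm_mul, Complex.norm_real, Real.norm_eq_abs]
    exact mul_le_mul hwp hint (norm_nonneg _) (by positivity)
  have hBE : L * BE E ≤ 2 * (L * BE (insert p E)) := by
    have h1 : BE (insert p E) = (1 - 1 / (p : ℝ)) * BE E := by
      unfold BE
      rw [prod_insert hpE]
    have h2 : 1 / (p : ℝ) ≤ 1 / 2 := one_div_le_one_div_of_le two_pos hp2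
    have h3 := hBE0 E hEp
    have h4 : BE E ≤ 2 * BE (insert p E) := by
      rw [h1]
      nlinarith
    nlinarith
  calc (L * BE E) ^ J * |cSumP F G L E w R i p| ≤
        (2 * (L * BE (insert p E))) ^ J * |cSumP F G L E w R i p| := by
        apply mul_le_mul_of_nonneg_right _ (abs_nonneg _)
        exact pow_le_pow_left₀ (mul_nonneg hL0.le (hBE0 E hEp)) hBE J
    _ = 2 ^ J * ((L * BE (insert p E)) ^ J * |cSumP F G L E w R i p|) := by
        rw [mul_pow]
        ring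
    _ ≤ 2 ^ J * (3 / p * ((∫ z, bnd' z) * κ)) := mul_le_mul_of_nonneg_left hfin (by positivity)
    _ = 12 * 2 ^ J * (∫ z, bnd' z) * (1 / p * (Real.log p / L) ^ 2) := by
        rw [hκ]
        ring
    _ ≤ 12 * 2 ^ J * ((∫ z, bnd' z) + 1) * (1 / p * (Real.log p / L) ^ 2) := by
        apply mul_le_mul_of_nonneg_right _ (by positivity)
        apply mul_le_mul_of_nonneg_left _ (by positivity)
        linarith

end Pool.Agent.L7h80.UM
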