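import Mathlib
import Pool.Agent.L7h28.UM.Stm2
import Pool.Agent.H398R2.PG.C

/-!
# Uniform Maynard-Tao theorem of Linnik type (helper28), second round: `S_FAM` and `S_FAM1`
-/

set_option autoImplicit false

namespace Pool.Agent.L7h80.UM

open Finset MeasureTheory Pool.Agent.H378R2 Pool.Agent.L7h28.UM
open scoped ContDiff

theorem DD_scale (f g : ℝ → ℝ) :
    DD (fun x => f (2 * x)) (fun x => g (2 * x)) = 2 * DD f g := by
  unfold DD
  have h1 : ∀ t : ℝ, deriv (fun x => f (2 * x)) t * deriv (fun x => g (2 * x)) t =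
      4 * (fun u => deriv f u * deriv g u) (2 * t) := by
    intro t
    have e1 : deriv (fun x => f (2 * x)) t = 2 * deriv f (2 * t) := by
      have := deriv_comp_mul_left (2 : ℝ) f t
      rwa [smul_eq_mul] at this
    have e2 : deriv (fun x => g (2 * x)) t = 2 * deriv g (2 * t) := by
      have := deriv_comp_mul_left (2 : ℝ) g t
      rwa [smul_eq_mul] at this
    rw [e1, e2]
    ring
  have h2 := integral_comp_mul_left_Ioi (fun u => deriv f u * deriv g u) 0 (zero_lt_two' ℝ)
  rw [mul_zero, smul_eq_mul] at h2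
  calc ∫ t in Set.Ioi (0 : ℝ), deriv (fun x => f (2 * x)) t * deriv (fun x => g (2 * x)) t =
      ∫ t in Set.Ioi (0 : ℝ), 4 * (fun u => deriv f u * deriv g u) (2 * t) :=
        integral_congr_ae (Filter.Eventually.of_forall h1)
    _ = 4 * (2⁻¹ * ∫ t in Set.Ioi (0 : ℝ), deriv f t * deriv g t) := by
        rw [integral_const_mul, h2]
    _ = 2 * ∫ t in Set.Ioi (0 : ℝ), deriv f t * deriv g t := by ring

theorem prod_split {K1 K : ℕ} (ι : Fin K1 ↪ Fin K) (F : Fin K → ℝ) (S : Finset (Fin K1)) :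
    ∏ k ∈ S.map ι ∪ (univ \ univ.map ι), F k =
      (∏ j ∈ S, F (ι j)) * ∏ k ∈ univ \ univ.map ι, F k := by
  rw [prod_union, prod_map]
  rw [disjoint_left]
  intro k hk hk2
  obtain ⟨j, -, rfl⟩ := mem_map.1 hk
  exact (mem_sdiff.1 hk2).2 (mem_map_of_mem ι (mem_univ j))

theorem univ_split {K1 K : ℕ} (ι : Fin K1 ↪ Fin K) :
    (univ : Finset (Fin K1)).map ι ∪ (univ \ univ.map ι) = univ := by
  rw [union_sdiff_self_eq_union]
  exact union_eq_right.2 (subset_univ _)

theorem erase_split {K1 K : ℕ} (ι : Fin K1 ↪ Fin K) (j : Fin K1) :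
    ((univ : Finset (Fin K1)).erase j).map ι ∪ (univ \ univ.map ι) = univ.erase (ι j) := by
  ext k
  simp only [mem_union, mem_map, mem_erase, mem_univ, and_true, mem_sdiff, true_and]
  constructor
  · rintro (⟨i, hi, rfl⟩ | h)
    · exact fun h => hi (ι.injective h)
    · rintro rfl
      exact h ⟨j, rfl⟩
  · intro h
    by_cases h2 : ∃ i, ι i = k
    · obtain ⟨i, rfl⟩ := h2
      exact Or.inl ⟨i, fun h3 => h (by rw [h3]), rfl⟩
    · exact Or.inr h2

theorem prod_succAbove {K : ℕ} (i : Fin (K + 1)) (F : Fin (K + 1) → ℝ) :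
    ∏ k : Fin K, F (i.succAbove k) = ∏ k ∈ univ.erase i, F k := by
  classical
  have h1 : (univ : Finset (Fin (K + 1))).erase i = univ.image i.succAbove := by
    rw [Fin.image_succAbove_univ]
    ext k
    simp
  rw [h1, prod_image]
  intro a _ b _ h
  exact Fin.succAbove_right_injective h

/-- the functions -/
noncomputable def fx {B : ℕ} (f : Fin B → ℝ → ℝ) (s : ℝ) : Fin (B + 1) → ℝ → ℝ :=
  Fin.snoc (α := fun _ => ℝ → ℝ) (fun l x => f l (2 * x)) (hs s)

/-- the ends of the supports -/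
noncomputable def cx {B : ℕ} (c : Fin B → ℝ) (s : ℝ) : Fin (B + 1) → ℝ :=
  Fin.snoc (α := fun _ => ℝ) (fun l => c l / 2) s

theorem fx_cast {B : ℕ} (f : Fin B → ℝ → ℝ) (s : ℝ) (l : Fin B) :
    fx f s l.castSucc = fun x => f l (2 * x) := by
  unfold fx
  rw [Fin.snoc_castSucc]

theorem fx_last {B : ℕ} (f : Fin B → ℝ → ℝ) (s : ℝ) : fx f s (Fin.last B) = hs s := by
  unfold fx
  rw [Fin.snoc_last]

theorem cx_cast {B : ℕ} (c : Fin B → ℝ) (s : ℝ) (l : Fin B) : cx c s l.castSucc = c l / 2 := by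
  unfold cx
  rw [Fin.snoc_castSucc]

theorem cx_last {B : ℕ} (c : Fin B → ℝ) (s : ℝ) : cx c s (Fin.last B) = s := by
  unfold cx
  rw [Fin.snoc_last]

/-- the indices -/
noncomputable def ax {K1 K B : ℕ} (ι : Fin K1 ↪ Fin K) (a : Fin K1 → Fin B) : Fin K → Fin (B + 1) :=
  Function.extend ι (fun j => (a j).castSucc) (fun _ => Fin.last B)

theorem ax_apply {K1 K B : ℕ} (ι : Fin K1 ↪ Fin K) (a : Fin K1 → Fin B) (j : Fin K1) :
    ax ι a (ι j) = (a j).castSucc := ι.injective.extend_apply _ _ _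

theorem ax_not {K1 K B : ℕ} (ι : Fin K1 ↪ Fin K) (a : Fin K1 → Fin B) {k : Fin K}
    (hk : k ∈ univ \ univ.map ι) : ax ι a k = Fin.last B := by
  apply Function.extend_apply'
  rintro ⟨j, rfl⟩
  exact (mem_sdiff.1 hk).2 (mem_map_of_mem ι (mem_univ j))

theorem ax_inj {K1 K B : ℕ} (ι : Fin K1 ↪ Fin K) :
    Function.Injective (ax (B := B) ι) := by
  intro a b h
  funext j
  have h1 := congrFun h (ι j)
  rw [ax_apply, ax_apply] at h1
  exact Fin.castSucc_injective _ h1

theorem s_FAM : S_FAM := by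
  classical
  intro M0
  obtain ⟨K0', B', f', c', A', hsm, hcs, hf0, hc, hA, hf1, hII, hJJ, -⟩ :=
    Pool.Agent.H398R2.PG.familyR (2 * M0) 0
  refine ⟨K0' + 1, by omega, fun K0 ι => ?_⟩
  set s : ℝ := 1 / (2 * ((K0 : ℝ) + 1)) with hs1
  have hK0 : (0 : ℝ) ≤ K0 := Nat.cast_nonneg _
  have hs0 : 0 < s := by rw [hs1]; positivity
  have hs2 : ((K0 : ℝ) + 1) * s = 1 / 2 := by
    rw [hs1]
    field_simp
  have hs3 : s ≤ 1 / 2 := by nlinarith
  set κ : ℝ := ∏ _k ∈ (univ : Finset (Fin (K0 + 1))) \ univ.map ι, (gam / s) with hκ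
  have hκ0 : 0 < κ := by
    rw [hκ]
    exact prod_pos fun _ _ => div_pos gam_pos hs0
  -- the products
  have hprod : ∀ (S : Finset (Fin (K0' + 1))) (a b : Fin (K0' + 1) → Fin B'),
      ∏ k ∈ S.map ι ∪ (univ \ univ.map ι), DD (fx f' s (ax ι a k)) (fx f' s (ax ι b k)) =
        2 ^ S.card * (∏ j ∈ S, DD (f' (a j)) (f' (b j))) * κ := by
    intro S a b
    rw [prod_split, hκ]
    congr 1
    · rw [← prod_const, ← prod_mul_distrib]
      apply prod_congr rfl
      intro j _
      rw [ax_apply, ax_apply, fx_cast, fx_cast, DD_scale]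
    · apply prod_congr rfl
      intro k hk
      rw [ax_not ι a hk, ax_not ι b hk, fx_last, DD_hs_self hs0]
  set A : Finset (Fin (K0 + 1) → Fin (B' + 1)) := A'.map ⟨ax ι, ax_inj ι⟩ with hAd
  have hIIeq : II (fx f' s) A = 2 ^ (K0' + 1) * II f' A' * κ := by
    unfold II
    rw [hAd, sum_map, mul_sum, sum_mul]
    apply sum_congr rfl
    intro a _
    rw [sum_map, mul_sum, sum_mul]
    apply sum_congr rfl
    intro b _
    have h1 := hprod univ a b
    rw [univ_split, card_univ, Fintype.card_fin] at h1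
    exact h1
  have hJJeq : ∀ j, JJ (fx f' s) A (ι j) = 2 ^ K0' * JJ f' A' j * κ := by
    intro j
    unfold JJ
    rw [hAd, sum_map, mul_sum, sum_mul]
    apply sum_congr rfl
    intro a _
    rw [sum_map, mul_sum, sum_mul]
    apply sum_congr rfl
    intro b _
    have h1 := hprod (univ.erase j) a b
    rw [erase_split, card_erase_of_mem (mem_univ j), card_univ, Fintype.card_fin,
      Nat.add_sub_cancel] at h1
    have h2 := prod_succAbove (ι j) (fun k => DD (fx f' s (ax ι a k)) (fx f' s (ax ι b k)))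
    have h3 := prod_succAbove j (fun k => DD (f' (a k)) (f' (b k)))
    simp only [Function.Embedding.coeFn_mk]
    rw [h2, h3, h1, ax_apply, ax_apply, fx_cast, fx_cast]
    simp only [mul_zero]
    ring
  refine ⟨B' + 1, fx f' s, cx c' s, A, ⟨?_, ?_, ?_, ?_, ?_, ?_⟩, ?_, ?_⟩
  · intro l
    refine Fin.lastCases ?_ (fun l => ?_) l
    · rw [fx_last]
      exact hs_smooth s
    · rw [fx_cast]
      exact (hsm l).comp (contDiff_const.mul contDiff_id)
  · intro l
    refine Fin.lastCases ?_ (fun l => ?_) l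
    · rw [fx_last]
      exact hs_compact hs0
    · rw [fx_cast]
      have h1 := (hcs l).comp_smul (two_ne_zero' ℝ)
      simpa only [smul_eq_mul] using h1
  · intro l x
    refine Fin.lastCases ?_ (fun l => ?_) l
    · rw [fx_last, cx_last]
      intro hx
      exact hs_zero hs0 (hx.le.trans (le_abs_self x))
    · rw [fx_cast, cx_cast]
      intro hx
      exact hf0 l _ (by linarith)
  · intro l
    refine Fin.lastCases ?_ (fun l => ?_) l
    · rw [cx_last]
      exact ⟨hs0.le, hs3⟩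
    · rw [cx_cast]
      have := hc l
      constructor <;> linarith
  · intro a ha
    obtain ⟨a, ha', rfl⟩ := mem_map.1 ha
    change ∑ k, cx c' s (ax ι a k) ≤ 1
    rw [← univ_split ι, sum_union, sum_map]
    · have h1 : ∑ j, cx c' s (ax ι a (ι j)) = (∑ j, c' (a j)) / 2 := by
        rw [sum_div]
        apply sum_congr rfl
        intro j _
        rw [ax_apply, cx_cast]
      have h2 : ∑ k ∈ univ \ univ.map ι, cx c' s (ax ι a k) ≤ 1 / 2 := by
        rw [sum_congr rfl (fun k hk => by rw [ax_not ι a hk, cx_last]), sum_const, nsmul_eq_mul]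
        rw [← hs2]
        apply mul_le_mul_of_nonneg_right _ hs0.le
        have h3 := card_le_univ (univ \ univ.map ι : Finset (Fin (K0 + 1)))
        rw [Fintype.card_fin] at h3
        exact_mod_cast h3
      have h4 := hA a ha'
      rw [h1]
      linarith
    · exact disjoint_sdiff
  · intro l x
    refine Fin.lastCases ?_ (fun l => ?_) l
    · rw [fx_last]
      exact hs_abs_le s x
    · rw [fx_cast]
      exact hf1 l _
  · rw [hIIeq]
    positivity
  · rw [hIIeq, sum_congr rfl (fun j _ => hJJeq j), ← sum_mul, ← mul_sum]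
    have h1 : 2 ^ K0' * κ * (2 * M0 * II f' A') ≤ 2 ^ K0' * κ * ∑ i, JJ f' A' i :=
      mul_le_mul_of_nonneg_left hJJ (by positivity)
    calc M0 * (2 ^ (K0' + 1) * II f' A' * κ) = 2 ^ K0' * κ * (2 * M0 * II f' A') := by
          rw [pow_succ]
          ring
      _ ≤ _ := h1
      _ = _ := by ring

theorem s_FAM1 : S_FAM1 := by
  classical
  intro K0 i
  set s : ℝ := 1 / (2 * ((K0 : ℝ) + 1)) with hs1
  have hK0 : (0 : ℝ) ≤ K0 := Nat.cast_nonneg _
  have hs0 : 0 < s := by rw [hs1]; positivity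
  have hs2 : ((K0 : ℝ) + 1) * s = 1 / 2 := by
    rw [hs1]
    field_simp
  have hs3 : s ≤ 1 / 2 := by nlinarith
  have hg : 0 < gam / s := div_pos gam_pos hs0
  refine ⟨1, fun _ => hs s, fun _ => s, {fun _ => 0}, ⟨fun _ => hs_smooth s, fun _ => hs_compact hs0,
    fun _ x hx => hs_zero hs0 (hx.le.trans (le_abs_self x)), fun _ => ⟨hs0.le, hs3⟩, ?_,
    fun _ x => hs_abs_le s x⟩, ?_, ?_⟩
  · intro a _
    rw [sum_const, card_univ, Fintype.card_fin, nsmul_eq_mul]
    push_cast
    linarith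
  · unfold II
    rw [sum_singleton, sum_singleton]
    exact prod_pos fun _ _ => by rw [DD_hs_self hs0]; exact hg
  · unfold JJ
    rw [sum_singleton, sum_singleton]
    simp only [hs_at_zero, one_mul]
    exact prod_pos fun _ _ => by rw [DD_hs_self hs0]; exact hg

end Pool.Agent.L7h80.UM
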