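import Mathlib
import Pool.Agent.L7h28.UM.Stm3

set_option autoImplicit false

/-!
# The number of the admissible residue classes
-/

open Finset Filter

namespace Pool.Agent.L7h80.UM

/-- The number of the residues `a` modulo `m` with all `α j * a + β j` coprime to `m`. -/
def FA {k : ℕ} (α β : Fin k → ℕ) (m : ℕ) : ℕ :=
  ((range m).filter (fun a => ∀ j, (α j * a + β j).Coprime m)).card

lemma cop_mod {m a b x : ℕ} (h : a ≡ b [MOD m]) (α β : ℕ) (hx : x = m) :
    (α * a + β).Coprime x ↔ (α * b + β).Coprime x := by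
  subst hx
  have : α * a + β ≡ α * b + β [MOD x] := (h.mul_left α).add_right β
  unfold Nat.Coprime
  rw [this.gcd_eq]

lemma FA_mul {k : ℕ} (α β : Fin k → ℕ) {m n : ℕ} (h : m.Coprime n) (hm : 0 < m) (hn : 0 < n) :
    FA α β (m * n) = FA α β m * FA α β n := by
  classical
  unfold FA
  rw [← card_product]
  refine card_bij (fun a _ => (a % m, a % n)) ?_ ?_ ?_
  · intro a ha
    rw [mem_filter, mem_range] at ha
    rw [mem_product, mem_filter, mem_filter, mem_range, mem_range]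
    refine ⟨⟨Nat.mod_lt _ hm, fun j => ?_⟩, ⟨Nat.mod_lt _ hn, fun j => ?_⟩⟩
    · rw [cop_mod (Nat.mod_modEq a m) _ _ rfl]
      exact (ha.2 j).coprime_mul_right_right
    · rw [cop_mod (Nat.mod_modEq a n) _ _ rfl]
      exact (ha.2 j).coprime_mul_left_right
  · intro a ha b hb hab
    rw [mem_filter, mem_range] at ha hb
    simp only [Prod.mk.injEq] at hab
    have h1 : a ≡ b [MOD m] := hab.1
    have h2 : a ≡ b [MOD n] := hab.2
    have h3 : a ≡ b [MOD m * n] := (Nat.modEq_and_modEq_iff_modEq_mul h).1 ⟨h1, h2⟩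
    exact Nat.ModEq.eq_of_lt_of_lt h3 ha.1 hb.1
  · rintro ⟨x, y⟩ hxy
    rw [mem_product, mem_filter, mem_filter, mem_range, mem_range] at hxy
    obtain ⟨⟨hx, hx2⟩, ⟨hy, hy2⟩⟩ := hxy
    have hz := (Nat.chineseRemainder h x y).2
    set z : ℕ := (Nat.chineseRemainder h x y : ℕ) with hzd
    have hzlt : z < m * n := Nat.chineseRemainder_lt_mul h x y hm.ne' hn.ne'
    refine ⟨z, ?_, ?_⟩
    · rw [mem_filter, mem_range]
      refine ⟨hzlt, fun j => ?_⟩
      refine Nat.Coprime.mul_right ?_ ?_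
      · rw [cop_mod hz.1 _ _ rfl]
        exact hx2 j
      · rw [cop_mod hz.2 _ _ rfl]
        exact hy2 j
    · simp only [Prod.mk.injEq]
      constructor
      · have := hz.1
        unfold Nat.ModEq at this
        rw [this, Nat.mod_eq_of_lt hx]
      · have := hz.2
        unfold Nat.ModEq at this
        rw [this, Nat.mod_eq_of_lt hy]

/-- No fixed prime divisor. -/
def Adm {k : ℕ} (α β : Fin k → ℕ) : Prop :=
  ∀ p : ℕ, p.Prime → ∃ n : ℕ, ∀ j, ¬ p ∣ α j * n + β j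

lemma Adm.cop {k : ℕ} {α β : Fin k → ℕ} (h : Adm α β) {p : ℕ} (hp : p.Prime) (j : Fin k)
    (ha : p ∣ α j) : ∀ a, ¬ p ∣ α j * a + β j := by
  intro a hd
  obtain ⟨n, hn⟩ := h p hp
  have hb : p ∣ β j := (Nat.dvd_add_right (ha.mul_right a)).1 hd
  exact hn j (dvd_add (ha.mul_right n) hb)

lemma FA_pos {k : ℕ} {α β : Fin k → ℕ} (h : Adm α β) {p : ℕ} (hp : p.Prime) :
    1 ≤ FA α β p := by
  obtain ⟨n, hn⟩ := h p hp
  unfold FA
  refine Finset.card_pos.2 ⟨n % p, ?_⟩
  rw [mem_filter, mem_range]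
  refine ⟨Nat.mod_lt _ hp.pos, fun j => ?_⟩
  rw [cop_mod (Nat.mod_modEq n p) _ _ rfl]
  exact ((Nat.Prime.coprime_iff_not_dvd hp).2 (hn j)).symm

lemma FA_ge {k : ℕ} {α β : Fin k → ℕ} (h : Adm α β) {p : ℕ} (hp : p.Prime) :
    p ≤ FA α β p + k := by
  classical
  have hsub : range p ⊆ ((range p).filter (fun a => ∀ j, (α j * a + β j).Coprime p)) ∪
      Finset.univ.biUnion (fun j : Fin k => (range p).filter (fun a => p ∣ α j * a + β j)) := by
    intro a ha
    by_cases hc : ∀ j, (α j * a + β j).Coprime p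
    · exact mem_union_left _ (mem_filter.2 ⟨ha, hc⟩)
    · push Not at hc
      obtain ⟨j, hj⟩ := hc
      refine mem_union_right _ (mem_biUnion.2 ⟨j, mem_univ _, mem_filter.2 ⟨ha, ?_⟩⟩)
      by_contra hd
      exact hj ((Nat.Prime.coprime_iff_not_dvd hp).2 hd).symm
  have h1 := card_le_card hsub
  rw [card_range] at h1
  have h2 : (Finset.univ.biUnion (fun j : Fin k =>
      (range p).filter (fun a => p ∣ α j * a + β j))).card ≤ k := by
    refine card_biUnion_le.trans ?_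
    have : ∀ j ∈ (Finset.univ : Finset (Fin k)),
        ((range p).filter (fun a => p ∣ α j * a + β j)).card ≤ 1 := by
      intro j _
      rw [card_le_one]
      intro a ha b hb
      rw [mem_filter, mem_range] at ha hb
      have hnd : ¬ p ∣ α j := fun hd => h.cop hp j hd a ha.2
      have h3 : α j * a + β j ≡ α j * b + β j [MOD p] :=
        ((Nat.modEq_zero_iff_dvd).2 ha.2).trans ((Nat.modEq_zero_iff_dvd).2 hb.2).symm
      have h4 : α j * a ≡ α j * b [MOD p] := Nat.ModEq.add_right_cancel' _ h3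
      have h5 : a ≡ b [MOD p] :=
        Nat.ModEq.cancel_left_of_coprime ((Nat.Prime.coprime_iff_not_dvd hp).2 hnd) h4
      exact Nat.ModEq.eq_of_lt_of_lt h5 ha.1 hb.1
    calc ∑ j : Fin k, ((range p).filter (fun a => p ∣ α j * a + β j)).card
        ≤ ∑ _j : Fin k, 1 := sum_le_sum this
      _ = k := by simp
  have h3 := card_union_le ((range p).filter (fun a => ∀ j, (α j * a + β j).Coprime p))
    (Finset.univ.biUnion (fun j : Fin k => (range p).filter (fun a => p ∣ α j * a + β j)))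
  unfold FA
  omega

lemma bern (x : ℝ) (k : ℕ) (h0 : 0 ≤ x) (h1 : x ≤ 1) : (1 - x) ^ k * (1 + k * x) ≤ 1 := by
  have h2 : 1 + (k : ℝ) * x ≤ (1 + x) ^ k := one_add_mul_le_pow (by linarith) k
  calc (1 - x) ^ k * (1 + k * x) ≤ (1 - x) ^ k * (1 + x) ^ k :=
        mul_le_mul_of_nonneg_left h2 (pow_nonneg (by linarith) k)
    _ = (1 - x ^ 2) ^ k := by rw [← mul_pow]; ring
    _ ≤ 1 := pow_le_one₀ (by nlinarith) (by nlinarith)

/-- The factor at the prime `p`. -/
noncomputable def bb (k p : ℕ) : ℝ := if p ≤ 2 * k then (p : ℝ)⁻¹ else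
  (1 - ((p : ℝ)⁻¹) ^ 2) ^ (2 * k ^ 2)

lemma bb_le {k p : ℕ} (hp : 2 ≤ p) : 0 ≤ bb k p ∧ bb k p ≤ 1 := by
  have hp' : (2 : ℝ) ≤ p := by exact_mod_cast hp
  have h0 : (0 : ℝ) < (p : ℝ)⁻¹ := by positivity
  have h1 : (p : ℝ)⁻¹ ≤ 1 := inv_le_one_of_one_le₀ (by linarith)
  unfold bb
  split_ifs
  · exact ⟨h0.le, h1⟩
  · exact ⟨pow_nonneg (by nlinarith) _, pow_le_one₀ (by nlinarith) (by nlinarith)⟩

lemma FA_prime {k : ℕ} {α β : Fin k → ℕ} (h : Adm α β) {p : ℕ} (hp : p.Prime) :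
    bb k p * (p * (1 - (p : ℝ)⁻¹) ^ k) ≤ FA α β p := by
  have hp2 : (2 : ℝ) ≤ p := by exact_mod_cast hp.two_le
  have h0 : (0 : ℝ) < (p : ℝ)⁻¹ := by positivity
  have h1 : (p : ℝ)⁻¹ ≤ 1 := inv_le_one_of_one_le₀ (by linarith)
  have h01 : (0 : ℝ) ≤ (1 - (p : ℝ)⁻¹) ^ k := pow_nonneg (by linarith) k
  unfold bb
  split_ifs with hk
  · have h2 : (1 : ℝ) ≤ FA α β p := by exact_mod_cast FA_pos h hp
    have h3 : (1 - (p : ℝ)⁻¹) ^ k ≤ 1 := pow_le_one₀ (by linarith) (by linarith)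
    calc (p : ℝ)⁻¹ * (p * (1 - (p : ℝ)⁻¹) ^ k) = (1 - (p : ℝ)⁻¹) ^ k := by
          field_simp
      _ ≤ 1 := h3
      _ ≤ _ := h2
  · push Not at hk
    have hkp : 2 * (k : ℝ) < p := by exact_mod_cast hk
    set x : ℝ := (p : ℝ)⁻¹ with hx
    have hpx : (p : ℝ) * x = 1 := mul_inv_cancel₀ (by linarith)
    have hkx : (k : ℝ) * x ≤ 1 / 2 := by
      have : (k : ℝ) * x ≤ (p / 2) * x := mul_le_mul_of_nonneg_right (by linarith) h0.le
      nlinarith
    have hk0 : (0 : ℝ) ≤ k := Nat.cast_nonneg k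
    have hkx0 : 0 ≤ (k : ℝ) * x := mul_nonneg hk0 h0.le
    have hx1 : x ^ 2 ≤ 1 := by nlinarith
    have e1 := bern (x ^ 2) (2 * k ^ 2) (by positivity) hx1
    have e2 := bern x k h0.le h1
    have h2 : (p : ℝ) - k ≤ FA α β p := by
      have := FA_ge h hp
      have : (p : ℝ) ≤ FA α β p + k := by exact_mod_cast this
      linarith
    -- `(1 - x^2)^(2k^2) ≤ 1 - k^2 x^2`
    have h3 : (1 - x ^ 2) ^ (2 * k ^ 2) ≤ 1 - (k : ℝ) ^ 2 * x ^ 2 := by
      have hu : (k : ℝ) ^ 2 * x ^ 2 ≤ 1 / 4 := by nlinarith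
      have hu0 : 0 ≤ (k : ℝ) ^ 2 * x ^ 2 := by positivity
      have hP : 0 ≤ (1 - x ^ 2) ^ (2 * k ^ 2) := pow_nonneg (by linarith) _
      push_cast at e1
      have h4 : 1 ≤ (1 - (k : ℝ) ^ 2 * x ^ 2) * (1 + 2 * (k : ℝ) ^ 2 * x ^ 2) := by
        nlinarith
      have h5 : 0 < 1 + 2 * (k : ℝ) ^ 2 * x ^ 2 := by positivity
      have h6 : (1 - x ^ 2) ^ (2 * k ^ 2) * (1 + 2 * (k : ℝ) ^ 2 * x ^ 2) ≤
          (1 - (k : ℝ) ^ 2 * x ^ 2) * (1 + 2 * (k : ℝ) ^ 2 * x ^ 2) := e1.trans h4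
      exact le_of_mul_le_mul_right h6 h5
    -- `(1 - k^2 x^2) (1 - x)^k ≤ 1 - k x`
    have h4 : (1 - (k : ℝ) ^ 2 * x ^ 2) * (1 - x) ^ k ≤ 1 - k * x := by
      have : (1 - (k : ℝ) ^ 2 * x ^ 2) * (1 - x) ^ k =
          (1 - k * x) * ((1 - x) ^ k * (1 + k * x)) := by ring
      rw [this]
      calc (1 - k * x) * ((1 - x) ^ k * (1 + k * x)) ≤ (1 - k * x) * 1 :=
            mul_le_mul_of_nonneg_left e2 (by linarith)
        _ = 1 - k * x := mul_one _
    calc (1 - x ^ 2) ^ (2 * k ^ 2) * (p * (1 - x) ^ k)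
        = p * ((1 - x ^ 2) ^ (2 * k ^ 2) * (1 - x) ^ k) := by ring
      _ ≤ p * ((1 - (k : ℝ) ^ 2 * x ^ 2) * (1 - x) ^ k) :=
          mul_le_mul_of_nonneg_left (mul_le_mul_of_nonneg_right h3 h01) (by linarith)
      _ ≤ p * (1 - k * x) := mul_le_mul_of_nonneg_left h4 (by linarith)
      _ = p - k * (p * x) := by ring
      _ = p - k := by rw [hpx, mul_one]
      _ ≤ _ := h2

lemma FA_lower {k : ℕ} {α β : Fin k → ℕ} (h : Adm α β) : ∀ W : ℕ, 0 < W → Squarefree W →
    (∏ p ∈ W.primeFactors, bb k p) * (W * ((W.totient : ℝ) / W) ^ k) ≤ FA α β W := by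
  intro W
  induction W using Nat.strong_induction_on with
  | _ W ih =>
    intro hW hsq
    rcases Nat.lt_or_ge 1 W with h1 | h1
    · have hp : W.minFac.Prime := Nat.minFac_prime (by omega)
      obtain ⟨m, hm⟩ := Nat.minFac_dvd W
      set p := W.minFac with hpd
      have hm0 : 0 < m := by
        rcases Nat.eq_zero_or_pos m with h | h
        · subst h; omega
        · exact h
      have hcop : p.Coprime m := by
        rw [hm] at hsq
        exact Nat.coprime_of_squarefree_mul hsq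
      have hmlt : m < W := by
        rw [hm]
        nlinarith [hp.two_le]
      have hmsq : Squarefree m := by
        rw [hm] at hsq
        exact hsq.of_mul_right
      have hi := ih m hmlt hm0 hmsq
      have hpr := FA_prime (α := α) (β := β) h hp
      have hpf : W.primeFactors = insert p m.primeFactors := by
        rw [hm, hcop.primeFactors_mul, hp.primeFactors]
        rfl
      have hnot : p ∉ m.primeFactors := by
        intro hin
        have := Nat.dvd_of_mem_primeFactors hin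
        have h3 := Nat.Coprime.eq_one_of_dvd hcop this
        exact hp.one_lt.ne' h3
      rw [hpf, prod_insert hnot, hm, FA_mul α β hcop hp.pos hm0, Nat.totient_mul hcop,
        Nat.totient_prime hp]
      have hp1 : (1 : ℝ) ≤ p := by exact_mod_cast hp.one_lt.le
      have hmR : (0 : ℝ) < m := by exact_mod_cast hm0
      have hpR : (0 : ℝ) < p := by linarith
      rw [Nat.cast_mul, Nat.cast_mul, Nat.cast_mul, Nat.cast_sub hp.one_lt.le, Nat.cast_one]
      have e1 : (((p : ℝ) - 1) * (m.totient : ℝ)) / ((p : ℝ) * m) =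
          (1 - (p : ℝ)⁻¹) * ((m.totient : ℝ) / m) := by
        field_simp
      rw [e1, mul_pow]
      have e2 : bb k p * (∏ q ∈ m.primeFactors, bb k q) *
          (p * m * ((1 - (p : ℝ)⁻¹) ^ k * ((m.totient : ℝ) / m) ^ k)) =
          (bb k p * (p * (1 - (p : ℝ)⁻¹) ^ k)) *
            ((∏ q ∈ m.primeFactors, bb k q) * (m * ((m.totient : ℝ) / m) ^ k)) := by ring
      rw [e2]
      refine mul_le_mul hpr hi ?_ (Nat.cast_nonneg _)
      refine mul_nonneg (prod_nonneg fun q hq => ?_) (by positivity)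
      exact (bb_le (Nat.prime_of_mem_primeFactors hq).two_le).1
    · have : W = 1 := by omega
      subst this
      simp [FA]

/-- Products of `1 - n ^ (-2)`. -/
lemma prod_sq (N : ℕ) : (1 : ℝ) / 2 + 1 / (2 * (N + 1)) ≤
    ∏ n ∈ range N, (1 - (((n + 2 : ℕ) : ℝ)⁻¹) ^ 2) := by
  induction N with
  | zero => norm_num
  | succ N ih =>
    rw [prod_range_succ]
    have hN : (0 : ℝ) ≤ N := Nat.cast_nonneg N
    have h1 : (0 : ℝ) ≤ 1 - (((N + 2 : ℕ) : ℝ)⁻¹) ^ 2 := by
      have : (((N + 2 : ℕ) : ℝ)⁻¹) ≤ 1 := inv_le_one_of_one_le₀ (by push_cast; linarith)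
      have h0 : (0 : ℝ) ≤ (((N + 2 : ℕ) : ℝ)⁻¹) := by positivity
      nlinarith
    refine le_trans ?_ (mul_le_mul_of_nonneg_right ih h1)
    push_cast
    have e : ((1 : ℝ) / 2 + 1 / (2 * (N + 1))) * (1 - ((N + 2 : ℝ)⁻¹) ^ 2) =
        1 / 2 + 1 / (2 * (N + 1 + 1)) := by
      field_simp
      ring
    rw [e]

lemma prod_sq_set (S : Finset ℕ) (hS : ∀ n ∈ S, 2 ≤ n) :
    (1 : ℝ) / 2 ≤ ∏ n ∈ S, (1 - ((n : ℝ)⁻¹) ^ 2) := by
  classical
  set N := S.sup id with hN
  have h1 : S ⊆ (range N).image (fun n => n + 2) := by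
    intro n hn
    have h2 := hS n hn
    have h3 : n ≤ N := Finset.le_sup (f := id) hn
    rw [mem_image]
    exact ⟨n - 2, by rw [mem_range]; omega, by omega⟩
  have hf : ∀ n : ℕ, 2 ≤ n → (0 : ℝ) ≤ 1 - ((n : ℝ)⁻¹) ^ 2 ∧ 1 - ((n : ℝ)⁻¹) ^ 2 ≤ 1 := by
    intro n hn
    have hn' : (2 : ℝ) ≤ n := by exact_mod_cast hn
    have h3 : ((n : ℝ)⁻¹) ≤ 1 := inv_le_one_of_one_le₀ (by linarith)
    have h4 : (0 : ℝ) ≤ ((n : ℝ)⁻¹) := by positivity
    constructor <;> nlinarith
  have h2 : ∏ n ∈ (range N).image (fun n : ℕ => n + 2), (1 - ((n : ℝ)⁻¹) ^ 2) ≤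
      ∏ n ∈ S, (1 - ((n : ℝ)⁻¹) ^ 2) := by
    refine prod_le_prod_of_subset_of_le_one h1 ?_ ?_
    · intro n hn
      obtain ⟨m, _, rfl⟩ := mem_image.1 hn
      exact (hf (m + 2) (by omega)).1
    · intro n hn _
      obtain ⟨m, _, rfl⟩ := mem_image.1 hn
      exact (hf (m + 2) (by omega)).2
  rw [prod_image (fun a _ b _ hab => by omega)] at h2
  refine le_trans ?_ ((prod_sq N).trans h2)
  have : (0 : ℝ) ≤ 1 / (2 * (N + 1)) := by positivity
  linarith

theorem s_ADM : Pool.Agent.L7h28.UM.S_ADM := by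
  classical
  intro k
  refine ⟨(∏ p ∈ Icc 1 (2 * k), (p : ℝ)⁻¹) * (1 / 2) ^ (2 * k ^ 2), ?_, ?_⟩
  · refine mul_pos (prod_pos fun p hp => ?_) (by positivity)
    have : 1 ≤ p := (mem_Icc.1 hp).1
    have : (1 : ℝ) ≤ p := by exact_mod_cast this
    positivity
  · intro W α β hW hsq hadm
    have h1 := FA_lower (α := α) (β := β) hadm W hW hsq
    have h2 : (FA α β W : ℝ) ≤
        (((range W).filter (fun a => ∀ j, (α j * a + β j).Coprime (α j * W))).card : ℝ) := by
      unfold FA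
      have : ((range W).filter (fun a => ∀ j, (α j * a + β j).Coprime W)) ⊆
          ((range W).filter (fun a => ∀ j, (α j * a + β j).Coprime (α j * W))) := by
        intro a ha
        rw [mem_filter] at ha ⊢
        refine ⟨ha.1, fun j => Nat.Coprime.mul_right ?_ (ha.2 j)⟩
        rw [Nat.coprime_iff_gcd_eq_one]
        by_contra hne
        obtain ⟨p, hp, hpd⟩ := Nat.exists_prime_and_dvd hne
        have h3 : p ∣ α j * a + β j := hpd.trans (Nat.gcd_dvd_left _ _)
        have h4 : p ∣ α j := hpd.trans (Nat.gcd_dvd_right _ _)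
        exact Adm.cop hadm hp j h4 a h3
      exact_mod_cast card_le_card this
    refine le_trans ?_ (h1.trans h2)
    refine mul_le_mul_of_nonneg_right ?_ (by positivity)
    -- the two parts of the product
    rw [← prod_filter_mul_prod_filter_not W.primeFactors (fun p => p ≤ 2 * k)]
    have hA : (∏ p ∈ Icc 1 (2 * k), (p : ℝ)⁻¹) ≤
        ∏ p ∈ W.primeFactors.filter (fun p => p ≤ 2 * k), bb k p := by
      have e1 : ∏ p ∈ W.primeFactors.filter (fun p => p ≤ 2 * k), bb k p =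
          ∏ p ∈ W.primeFactors.filter (fun p => p ≤ 2 * k), (p : ℝ)⁻¹ := by
        refine prod_congr rfl fun p hp => ?_
        unfold bb
        rw [if_pos (mem_filter.1 hp).2]
      rw [e1]
      refine prod_le_prod_of_subset_of_le_one ?_ ?_ ?_
      · intro p hp
        rw [mem_filter] at hp
        exact mem_Icc.2 ⟨(Nat.prime_of_mem_primeFactors hp.1).one_lt.le, hp.2⟩
      · intro p _
        positivity
      · intro p hp _
        have h1 : 1 ≤ p := (mem_Icc.1 hp).1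
        exact inv_le_one_of_one_le₀ (by exact_mod_cast h1)
    have hB : ((1 : ℝ) / 2) ^ (2 * k ^ 2) ≤
        ∏ p ∈ W.primeFactors.filter (fun p => ¬ p ≤ 2 * k), bb k p := by
      have e1 : ∏ p ∈ W.primeFactors.filter (fun p => ¬ p ≤ 2 * k), bb k p =
          (∏ p ∈ W.primeFactors.filter (fun p => ¬ p ≤ 2 * k),
            (1 - ((p : ℝ)⁻¹) ^ 2)) ^ (2 * k ^ 2) := by
        rw [← prod_pow]
        refine prod_congr rfl fun p hp => ?_
        unfold bb
        rw [if_neg (mem_filter.1 hp).2]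
      rw [e1]
      refine pow_le_pow_left₀ (by norm_num) (prod_sq_set _ ?_) _
      intro p hp
      exact (Nat.prime_of_mem_primeFactors (mem_filter.1 hp).1).two_le
    exact mul_le_mul hA hB (by positivity) (prod_nonneg fun p hp =>
      (bb_le (Nat.prime_of_mem_primeFactors (mem_filter.1 hp).1).two_le).1)

end Pool.Agent.L7h80.UM
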